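import Mathlib

/-!
# Amalgamated free products over virtually cyclic subgroups preserve property (VRC)

We prove: if `P` and `Q` have property (VRC) and `R ≤ P`, `S ≤ Q` are isomorphic virtually cyclic
subgroups, then `P *_{R = S} Q` has property (VRC).

Outline.
* `vr_of_pow`: a cyclic subgroup generated by `g` is a virtual retract as soon as some additive
  integer valued function on a subgroup of finite index does not vanish at a positive power of `g`.
* `exhaust`: for an injective homomorphism from a virtually cyclic group `H` to a group with (VRC)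
  one finds normal subgroups of finite index whose preimage is generated by `l ^ (a * k)`, for all
  `k`. This makes finite quotients of the two factors compatible.
* `Amalg.main`: monomial type actions of the amalgamated product on a finite set times the integers,
  built from actions of compatible finite index normal subgroups of the factors.
* `Amalg.elliptic`: elements of the factors. The integer valued functions of the two sides are made
  to agree on the amalgamated subgroup by multiplying them with each other, and cancellations are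
  avoided by a permuted family of sign functions.
* `Amalg.hyperbolic`: cyclically reduced words of length at least two. The action is steered by
  partial injections so that a power of the word becomes a pure translation.
-/

universe u v

namespace Pool.Agent.Results.MP_61a31f_al.AmalgamVRC

/-- `H` is a virtual retract of `G`: some subgroup `K` of finite index in `G` contains `H` and
has a homomorphism `K → H` which is the identity on `H`. -/
def IsVirtualRetract {G : Type u} [Group G] (H : Subgroup G) : Prop :=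
  ∃ (K : Subgroup G) (hHK : H ≤ K), K.FiniteIndex ∧
    ∃ ρ : K →* H, ∀ h : H, ρ ⟨(h : G), hHK h.2⟩ = h

/-- Property (VRC): every cyclic subgroup is a virtual retract. -/
def VRC (G : Type u) [Group G] : Prop :=
  ∀ g : G, IsVirtualRetract (Subgroup.zpowers g)

/-- working form of: `zpowers g` is a virtual retract -/
def VR {G : Type u} [Group G] (g : G) : Prop :=
  ∃ (K : Subgroup G) (ρ : G → G), K.FiniteIndex ∧ g ∈ K ∧
    (∀ a ∈ K, ∀ b ∈ K, ρ (a * b) = ρ a * ρ b) ∧
    (∀ a ∈ K, ρ a ∈ Subgroup.zpowers g) ∧ ρ g = g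

theorem vr_iff {G : Type u} [Group G] (g : G) :
    IsVirtualRetract (Subgroup.zpowers g) ↔ VR g := by
  classical
  constructor
  · rintro ⟨K, hHK, hfi, ρ, hρ⟩
    refine ⟨K, fun x => if h : x ∈ K then (ρ ⟨x, h⟩ : G) else 1, hfi,
      hHK (Subgroup.mem_zpowers g), ?_, ?_, ?_⟩
    · intro a ha b hb
      simp only [dif_pos ha, dif_pos hb, dif_pos (K.mul_mem ha hb)]
      rw [← Subgroup.coe_mul, ← map_mul]
      rfl
    · intro a ha
      simp only [dif_pos ha]
      exact (ρ ⟨a, ha⟩).2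
    · have hg : g ∈ K := hHK (Subgroup.mem_zpowers g)
      simp only [dif_pos hg]
      have := hρ ⟨g, Subgroup.mem_zpowers g⟩
      exact congrArg Subtype.val this
  · rintro ⟨K, ρ, hfi, hg, hmul, hmem, hρg⟩
    have hle : Subgroup.zpowers g ≤ K := by
      rw [Subgroup.zpowers_le]; exact hg
    refine ⟨K, hle, hfi, MonoidHom.mk' (fun k => ⟨ρ k, hmem k k.2⟩) ?_, ?_⟩
    · intro a b
      apply Subtype.ext
      exact hmul a a.2 b b.2
    · rintro ⟨h, hh⟩
      obtain ⟨n, rfl⟩ := Subgroup.mem_zpowers_iff.1 hh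
      set f : K →* Subgroup.zpowers g := MonoidHom.mk' (fun k => ⟨ρ k, hmem k k.2⟩) (by
        intro a b
        apply Subtype.ext
        exact hmul a a.2 b b.2) with hf
      have h1 : f ⟨g, hg⟩ = ⟨g, Subgroup.mem_zpowers g⟩ := Subtype.ext hρg
      have h2 : (⟨g ^ n, hle hh⟩ : K) = (⟨g, hg⟩ : K) ^ n := by
        apply Subtype.ext; simp
      show f ⟨g ^ n, hle hh⟩ = _
      rw [h2, map_zpow, h1]
      apply Subtype.ext; simp

theorem fi_of_fun {G : Type u} [Group G] {ι : Type v} [Finite ι] (K K' : Subgroup G)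
    (hK : K.FiniteIndex) (c : G → ι)
    (h : ∀ a ∈ K, ∀ b ∈ K, c a = c b → a⁻¹ * b ∈ K') : K'.FiniteIndex := by
  classical
  have := hK
  have : Finite (G ⧸ K') := by
    refine Finite.of_injective (fun z : G ⧸ K' => (((z.out : G) : G ⧸ K),
      c (((z.out : G) : G ⧸ K).out⁻¹ * z.out))) ?_
    intro z z' hz
    simp only [Prod.mk.injEq] at hz
    obtain ⟨h1, h2⟩ := hz
    rw [← h1] at h2
    have h3 : ((((z.out : G) : G ⧸ K)).out : G)⁻¹ * z.out ∈ K := by
      rw [← QuotientGroup.eq]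
      exact QuotientGroup.out_eq' _
    have h4 : ((((z.out : G) : G ⧸ K)).out : G)⁻¹ * z'.out ∈ K := by
      rw [← QuotientGroup.eq, ← h1]
      exact QuotientGroup.out_eq' _
    have h5 := h _ h3 _ h4 h2
    have h6 : (z.out : G)⁻¹ * z'.out ∈ K' := by
      convert h5 using 1
      group
    rw [← QuotientGroup.eq, QuotientGroup.out_eq', QuotientGroup.out_eq'] at h6
    exact h6
  exact Subgroup.finiteIndex_of_finite_quotient

section additive

variable {G : Type u} [Group G] {K : Subgroup G} {F : G → ℤ}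

theorem add_one (hF : ∀ a ∈ K, ∀ b ∈ K, F (a * b) = F a + F b) : F 1 = 0 := by
  have := hF 1 K.one_mem 1 K.one_mem
  rw [mul_one] at this
  omega

theorem add_inv (hF : ∀ a ∈ K, ∀ b ∈ K, F (a * b) = F a + F b) {a : G} (ha : a ∈ K) :
    F a⁻¹ = - F a := by
  have := hF a ha a⁻¹ (K.inv_mem ha)
  rw [mul_inv_cancel, add_one hF] at this
  omega

theorem add_pow (hF : ∀ a ∈ K, ∀ b ∈ K, F (a * b) = F a + F b) {a : G} (ha : a ∈ K) (n : ℕ) :
    F (a ^ n) = n * F a := by
  induction n with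
  | zero => simp [add_one hF]
  | succ n ih =>
    rw [pow_succ, hF _ (K.pow_mem ha n) _ ha, ih]; push_cast; ring

theorem add_zpow (hF : ∀ a ∈ K, ∀ b ∈ K, F (a * b) = F a + F b) {a : G} (ha : a ∈ K) (n : ℤ) :
    F (a ^ n) = n * F a := by
  cases n with
  | ofNat n => simpa using add_pow hF ha n
  | negSucc n =>
    rw [zpow_negSucc, add_inv hF (K.pow_mem ha _), add_pow hF ha]
    rw [Int.negSucc_eq]; push_cast; ring

theorem add_conj (hF : ∀ a ∈ K, ∀ b ∈ K, F (a * b) = F a + F b) {a b : G} (ha : a ∈ K)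
    (hb : b ∈ K) : F (b⁻¹ * a * b) = F a := by
  rw [hF _ (K.mul_mem (K.inv_mem hb) ha) _ hb, hF _ (K.inv_mem hb) _ ha, add_inv hF hb]
  ring

/-- a subgroup cut out by a divisibility condition -/
theorem fi_dvd (hK : K.FiniteIndex) (hF : ∀ a ∈ K, ∀ b ∈ K, F (a * b) = F a + F b)
    (m : ℤ) (hm : m ≠ 0) :
    ∃ K' : Subgroup G, K'.FiniteIndex ∧ ∀ a, a ∈ K' ↔ a ∈ K ∧ m ∣ F a := by
  let K' : Subgroup G :=
    { carrier := {a | a ∈ K ∧ m ∣ F a}
      mul_mem' := by
        rintro a b ⟨ha, ha'⟩ ⟨hb, hb'⟩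
        exact ⟨K.mul_mem ha hb, by rw [hF a ha b hb]; exact dvd_add ha' hb'⟩
      one_mem' := ⟨K.one_mem, by rw [add_one hF]; exact dvd_zero _⟩
      inv_mem' := by
        rintro a ⟨ha, ha'⟩
        exact ⟨K.inv_mem ha, by rw [add_inv hF ha]; exact (dvd_neg).2 ha'⟩ }
  refine ⟨K', ?_, fun a => Iff.rfl⟩
  have : NeZero m.natAbs := ⟨by simpa using hm⟩
  refine fi_of_fun K K' hK (fun a => ((F a : ℤ) : ZMod m.natAbs)) ?_
  intro a ha b hb hab
  refine ⟨K.mul_mem (K.inv_mem ha) hb, ?_⟩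
  rw [hF _ (K.inv_mem ha) _ hb, add_inv hF ha]
  rw [ZMod.intCast_eq_intCast_iff_dvd_sub] at hab
  have h1 : m ∣ ((m.natAbs : ℕ) : ℤ) := by
    rw [Int.dvd_natCast]
  have h2 := h1.trans hab
  have h3 : -F a + F b = F b - F a := by ring
  rw [h3]; exact h2

theorem vr_of_additive {g : G} (hK : K.FiniteIndex)
    (hF : ∀ a ∈ K, ∀ b ∈ K, F (a * b) = F a + F b) (hg : g ∈ K) (hFg : F g ≠ 0) : VR g := by
  obtain ⟨K', hK', hmem⟩ := fi_dvd hK hF (F g) hFg
  refine ⟨K', fun x => g ^ (F x / F g), hK', (hmem g).2 ⟨hg, dvd_rfl⟩, ?_, ?_, ?_⟩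
  · intro a ha b hb
    rw [hmem] at ha hb
    show g ^ (F (a * b) / F g) = g ^ (F a / F g) * g ^ (F b / F g)
    rw [hF a ha.1 b hb.1, Int.add_ediv_of_dvd_left ha.2, zpow_add]
  · intro a ha
    exact ⟨_, rfl⟩
  · show g ^ (F g / F g) = g
    rw [Int.ediv_self hFg, zpow_one]

/-- periodic sums -/
theorem sum_shift {M : ℕ} (f : ℕ → ℤ) (hf : f M = f 0) :
    ∑ i ∈ Finset.range M, f (i + 1) = ∑ i ∈ Finset.range M, f i := by
  have h1 := Finset.sum_range_succ f M
  have h2 := Finset.sum_range_succ' f M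
  rw [h1, hf] at h2
  linarith

/-- The transfer argument: a power of `g` on which an additive function on a subgroup of finite
index does not vanish is enough. -/
theorem vr_of_pow {g : G} {M : ℕ} (hK : K.FiniteIndex)
    (hF : ∀ a ∈ K, ∀ b ∈ K, F (a * b) = F a + F b) (hM : 0 < M) (hg : g ^ M ∈ K)
    (hFg : F (g ^ M) ≠ 0) : VR g := by
  classical
  -- pass to the normal core
  have := hK
  set N : Subgroup G := K.normalCore with hN
  have hNn : N.Normal := K.normalCore_normal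
  have hNfi : N.FiniteIndex := inferInstance
  have hNK : N ≤ K := K.normalCore_le
  set M' : ℕ := M * N.index with hM'
  have hM'0 : 0 < M' := Nat.mul_pos hM (Nat.pos_of_ne_zero hNfi.index_ne_zero)
  have hgN : g ^ M' ∈ N := by
    rw [hM', pow_mul]
    exact N.pow_index_mem _
  have hFg' : F (g ^ M') ≠ 0 := by
    rw [hM', pow_mul, add_pow hF hg]
    exact mul_ne_zero (by exact_mod_cast hNfi.index_ne_zero) hFg
  have hFN : ∀ a ∈ N, ∀ b ∈ N, F (a * b) = F a + F b := fun a ha b hb =>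
    hF a (hNK ha) b (hNK hb)
  have hconj : ∀ a ∈ N, ∀ x : G, x⁻¹ * a * x ∈ N := by
    intro a ha x
    have := hNn.conj_mem a ha x⁻¹
    simpa using this
  -- the averaged function
  let S : G → ℤ := fun a => ∑ i ∈ Finset.range M', F ((g ^ i)⁻¹ * a * g ^ i)
  have hS : ∀ a ∈ N, ∀ b ∈ N, S (a * b) = S a + S b := by
    intro a ha b hb
    show ∑ i ∈ Finset.range M', F ((g ^ i)⁻¹ * (a * b) * g ^ i) = _ + _
    rw [← Finset.sum_add_distrib]
    refine Finset.sum_congr rfl fun i _ => ?_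
    rw [← hFN _ (hconj a ha _) _ (hconj b hb _)]
    congr 1; group
  have hS1 : ∀ a ∈ N, S (g⁻¹ * a * g) = S a := by
    intro a ha
    have := sum_shift (M := M') (fun i => F ((g ^ i)⁻¹ * a * g ^ i)) (by
      show F ((g ^ M')⁻¹ * a * g ^ M') = F ((g ^ 0)⁻¹ * a * g ^ 0)
      rw [add_conj hFN ha hgN]; simp)
    show ∑ i ∈ Finset.range M', F ((g ^ i)⁻¹ * (g⁻¹ * a * g) * g ^ i) =
      ∑ i ∈ Finset.range M', F ((g ^ i)⁻¹ * a * g ^ i)
    rw [← this]
    refine Finset.sum_congr rfl fun i _ => ?_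
    show F ((g ^ i)⁻¹ * (g⁻¹ * a * g) * g ^ i) = F ((g ^ (i + 1))⁻¹ * a * g ^ (i + 1))
    congr 1
    rw [pow_succ']; group
  have hSn : ∀ (n : ℕ), ∀ a ∈ N, S ((g ^ n)⁻¹ * a * g ^ n) = S a := by
    intro n
    induction n with
    | zero => intro a _; simp
    | succ n ih =>
      intro a ha
      have h1 : (g ^ (n + 1))⁻¹ * a * g ^ (n + 1) = g⁻¹ * ((g ^ n)⁻¹ * a * g ^ n) * g := by
        rw [pow_succ]; group
      rw [h1, hS1 _ (hconj a ha _), ih a ha]
  have hSz : ∀ (n : ℤ), ∀ a ∈ N, S ((g ^ n)⁻¹ * a * g ^ n) = S a := by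
    intro n a ha
    cases n with
    | ofNat n => simpa using hSn n a ha
    | negSucc n =>
      have h1 := hSn (n + 1) _ (hconj a ha (g ^ (Int.negSucc n)))
      rw [← h1]
      congr 1
      rw [zpow_negSucc]; group
  have hSg : ∀ l : ℤ, g ^ l ∈ N → S (g ^ l) = l * F (g ^ M') := by
    intro l hl
    have h1 : S (g ^ l) = M' * F (g ^ l) := by
      show ∑ i ∈ Finset.range M', F ((g ^ i)⁻¹ * g ^ l * g ^ i) = _
      rw [Finset.sum_congr rfl (g := fun _ => F (g ^ l))]
      · simp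
      · intro i _
        congr 1
        rw [← zpow_natCast g i]; group
        
    rw [h1, ← add_pow hFN hl, ← add_zpow hFN hgN]
    congr 1
    rw [← zpow_natCast, ← zpow_mul, ← zpow_natCast, ← zpow_mul, mul_comm]
  -- the extended subgroup
  let K' : Subgroup G :=
    { carrier := {k | ∃ j : ℤ, g ^ j * k ∈ N}
      mul_mem' := by
        rintro a b ⟨j, hj⟩ ⟨j', hj'⟩
        refine ⟨j' + j, ?_⟩
        have h1 : g ^ (j' + j) * (a * b) =
            ((g ^ (-j'))⁻¹ * (g ^ j * a) * g ^ (-j')) * (g ^ j' * b) := by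
          rw [zpow_add, zpow_neg]; group
        rw [h1]
        exact N.mul_mem (hconj _ hj _) hj'
      one_mem' := ⟨0, by simp [N.one_mem]⟩
      inv_mem' := by
        rintro a ⟨j, hj⟩
        refine ⟨-j, ?_⟩
        have h1 : g ^ (-j) * a⁻¹ = (g ^ j)⁻¹ * (g ^ j * a)⁻¹ * g ^ j := by
          rw [zpow_neg]; group
        rw [h1]
        exact hconj _ (N.inv_mem hj) _ }
  have hNK' : N ≤ K' := fun a ha => ⟨0, by simpa using ha⟩
  have hK'fi : K'.FiniteIndex := Subgroup.finiteIndex_of_le hNK'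
  let F' : G → ℤ := fun k => if h : ∃ j : ℤ, g ^ j * k ∈ N then
      S (g ^ (Classical.choose h) * k) - (Classical.choose h) * F (g ^ M') else 0
  have key : ∀ k (j : ℤ), g ^ j * k ∈ N → F' k = S (g ^ j * k) - j * F (g ^ M') := by
    intro k j hj
    have h : ∃ j : ℤ, g ^ j * k ∈ N := ⟨j, hj⟩
    have h1 : F' k = S (g ^ (Classical.choose h) * k) - (Classical.choose h) * F (g ^ M') := by
      show (if h : ∃ j : ℤ, g ^ j * k ∈ N then
        S (g ^ (Classical.choose h) * k) - (Classical.choose h) * F (g ^ M') else 0) = _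
      rw [dif_pos h]
    set j' := Classical.choose h with hj'
    have hj'' : g ^ j' * k ∈ N := Classical.choose_spec h
    have h2 : g ^ (j - j') ∈ N := by
      have : g ^ (j - j') = (g ^ j * k) * (g ^ j' * k)⁻¹ := by
        rw [zpow_sub]; group
      rw [this]
      exact N.mul_mem hj (N.inv_mem hj'')
    have h3 : S (g ^ j * k) = S (g ^ (j - j')) + S (g ^ j' * k) := by
      rw [← hS _ h2 _ hj'']
      congr 1
      rw [← mul_assoc, ← zpow_add]; congr 2; ring
    rw [h1, h3, hSg _ h2]; ring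
  refine vr_of_additive (K := K') (F := F') hK'fi ?_ (g := g) ⟨-1, by simp [N.one_mem]⟩ ?_
  · rintro a ⟨j, hj⟩ b ⟨j', hj'⟩
    have h1 : g ^ (j' + j) * (a * b) =
            ((g ^ (-j'))⁻¹ * (g ^ j * a) * g ^ (-j')) * (g ^ j' * b) := by
          rw [zpow_add, zpow_neg]; group
    have h2 : g ^ (j' + j) * (a * b) ∈ N := by
      rw [h1]
      exact N.mul_mem (hconj _ hj _) hj'
    rw [key _ _ h2, key _ _ hj, key _ _ hj', h1, hS _ (hconj _ hj _) _ hj', hSz _ _ hj]
    ring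
  · rw [key g (-1) (by simp [N.one_mem])]
    have h1 : g ^ (-1 : ℤ) * g = g ^ (0 : ℤ) := by simp
    rw [h1, hSg 0 (by simp [N.one_mem])]
    simpa using hFg'

end additive

theorem vr_conj {G : Type u} [Group G] {g : G} (h : VR g) (c : G) : VR (c * g * c⁻¹) := by
  obtain ⟨K, ρ, hfi, hg, hmul, hmem, hρg⟩ := h
  have := hfi
  refine ⟨K.comap (MulAut.conj c⁻¹).toMonoidHom, fun x => c * ρ (c⁻¹ * x * c) * c⁻¹, ?_, ?_, ?_,
    ?_, ?_⟩
  · constructor
    rw [Subgroup.index_comap_of_surjective]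
    · exact hfi.index_ne_zero
    · exact (MulAut.conj c⁻¹).surjective
  · rw [Subgroup.mem_comap]
    have : (MulAut.conj c⁻¹).toMonoidHom (c * g * c⁻¹) = g := by
      simp; group
    rw [this]; exact hg
  · intro a ha b hb
    rw [Subgroup.mem_comap] at ha hb
    have ha' : c⁻¹ * a * c ∈ K := by simpa [MulAut.conj_apply] using ha
    have hb' : c⁻¹ * b * c ∈ K := by simpa [MulAut.conj_apply] using hb
    have h1 : c⁻¹ * (a * b) * c = (c⁻¹ * a * c) * (c⁻¹ * b * c) := by group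
    show c * ρ (c⁻¹ * (a * b) * c) * c⁻¹ = _
    rw [h1, hmul _ ha' _ hb']; group
  · intro a ha
    rw [Subgroup.mem_comap] at ha
    have ha' : c⁻¹ * a * c ∈ K := by simpa [MulAut.conj_apply] using ha
    obtain ⟨n, hn⟩ := Subgroup.mem_zpowers_iff.1 (hmem _ ha')
    refine Subgroup.mem_zpowers_iff.2 ⟨n, ?_⟩
    show _ = c * ρ (c⁻¹ * a * c) * c⁻¹
    rw [← hn, conj_zpow]
  · show c * ρ (c⁻¹ * (c * g * c⁻¹) * c) * c⁻¹ = _
    have h1 : c⁻¹ * (c * g * c⁻¹) * c = g := by group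
    rw [h1, hρg]

theorem vr_inv {G : Type u} [Group G] {g : G} (h : VR g) : VR g⁻¹ := by
  rw [← vr_iff] at h ⊢
  rw [Subgroup.zpowers_inv]; exact h

theorem vr_of_finite {G : Type u} [Group G] {g : G} (N : Subgroup G) (hN : N.Normal)
    (hfi : N.FiniteIndex) (h : ∀ n : ℤ, g ^ n ∈ N → g ^ n = 1) : VR g := by
  classical
  have hconj : ∀ a ∈ N, ∀ x : G, x⁻¹ * a * x ∈ N := by
    intro a ha x
    have := hN.conj_mem a ha x⁻¹
    simpa using this
  let K' : Subgroup G :=
    { carrier := {k | ∃ j : ℤ, g ^ j * k ∈ N}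
      mul_mem' := by
        rintro a b ⟨j, hj⟩ ⟨j', hj'⟩
        refine ⟨j' + j, ?_⟩
        have h1 : g ^ (j' + j) * (a * b) =
            ((g ^ (-j'))⁻¹ * (g ^ j * a) * g ^ (-j')) * (g ^ j' * b) := by
          rw [zpow_add, zpow_neg]; group
        rw [h1]
        exact N.mul_mem (hconj _ hj _) hj'
      one_mem' := ⟨0, by simp [N.one_mem]⟩
      inv_mem' := by
        rintro a ⟨j, hj⟩
        refine ⟨-j, ?_⟩
        have h1 : g ^ (-j) * a⁻¹ = (g ^ j)⁻¹ * (g ^ j * a)⁻¹ * g ^ j := by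
          rw [zpow_neg]; group
        rw [h1]
        exact hconj _ (N.inv_mem hj) _ }
  have hNK' : N ≤ K' := fun a ha => ⟨0, by simpa using ha⟩
  have hK'fi : K'.FiniteIndex := Subgroup.finiteIndex_of_le hNK'
  let ρ : G → G := fun k => if h : ∃ j : ℤ, g ^ j * k ∈ N then g ^ (-(Classical.choose h)) else 1
  have key : ∀ k (j : ℤ), g ^ j * k ∈ N → ρ k = g ^ (-j) := by
    intro k j hj
    have h0 : ∃ j : ℤ, g ^ j * k ∈ N := ⟨j, hj⟩
    have h1 : ρ k = g ^ (-(Classical.choose h0)) := by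
      show (if h : ∃ j : ℤ, g ^ j * k ∈ N then g ^ (-(Classical.choose h)) else 1) = _
      rw [dif_pos h0]
    set j' := Classical.choose h0 with hj'
    have hj'' : g ^ j' * k ∈ N := Classical.choose_spec h0
    have h2 : g ^ (j - j') ∈ N := by
      have : g ^ (j - j') = (g ^ j * k) * (g ^ j' * k)⁻¹ := by
        rw [zpow_sub]; group
      rw [this]
      exact N.mul_mem hj (N.inv_mem hj'')
    have h3 := h _ h2
    rw [h1]
    have h4 : g ^ (-j') = g ^ (-j) * g ^ (j - j') := by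
      rw [← zpow_add]; congr 1; ring
    rw [h4, h3, mul_one]
  refine ⟨K', ρ, hK'fi, ⟨-1, by simp [N.one_mem]⟩, ?_, ?_, ?_⟩
  · rintro a ⟨j, hj⟩ b ⟨j', hj'⟩
    have h1 : g ^ (j' + j) * (a * b) =
            ((g ^ (-j'))⁻¹ * (g ^ j * a) * g ^ (-j')) * (g ^ j' * b) := by
          rw [zpow_add, zpow_neg]; group
    have h2 : g ^ (j' + j) * (a * b) ∈ N := by
      rw [h1]
      exact N.mul_mem (hconj _ hj _) hj'
    rw [key _ _ h2, key _ _ hj, key _ _ hj', ← zpow_add]; congr 1; ring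
  · rintro a ⟨j, hj⟩
    rw [key _ _ hj]
    exact ⟨_, rfl⟩
  · rw [key g (-1) (by simp [N.one_mem])]
    simp

/-! ### consequences of (VRC) for elements -/

section elements

variable {P : Type u} [Group P]

theorem rho_one {K : Subgroup P} {ρ : P → P} (h : ∀ a ∈ K, ∀ b ∈ K, ρ (a * b) = ρ a * ρ b) :
    ρ 1 = 1 := by
  have := h 1 K.one_mem 1 K.one_mem
  rw [mul_one] at this
  exact left_eq_mul.1 this

theorem rho_inv {K : Subgroup P} {ρ : P → P} (h : ∀ a ∈ K, ∀ b ∈ K, ρ (a * b) = ρ a * ρ b)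
    {a : P} (ha : a ∈ K) : ρ a⁻¹ = (ρ a)⁻¹ := by
  have := h a ha a⁻¹ (K.inv_mem ha)
  rw [mul_inv_cancel, rho_one h] at this
  exact eq_inv_of_mul_eq_one_right this.symm

/-- preimage of a finite index subgroup -/
theorem fi_rho {K : Subgroup P} {ρ : P → P} (hK : K.FiniteIndex)
    (h : ∀ a ∈ K, ∀ b ∈ K, ρ (a * b) = ρ a * ρ b) (M : Subgroup P) (hM : M.FiniteIndex) :
    ∃ K' : Subgroup P, K'.FiniteIndex ∧ ∀ a, a ∈ K' ↔ a ∈ K ∧ ρ a ∈ M := by
  let K' : Subgroup P :=
    { carrier := {a | a ∈ K ∧ ρ a ∈ M}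
      mul_mem' := by
        rintro a b ⟨ha, ha'⟩ ⟨hb, hb'⟩
        exact ⟨K.mul_mem ha hb, by rw [h a ha b hb]; exact M.mul_mem ha' hb'⟩
      one_mem' := ⟨K.one_mem, by rw [rho_one h]; exact M.one_mem⟩
      inv_mem' := by
        rintro a ⟨ha, ha'⟩
        exact ⟨K.inv_mem ha, by rw [rho_inv h ha]; exact M.inv_mem ha'⟩ }
  refine ⟨K', ?_, fun a => Iff.rfl⟩
  have := hM
  refine fi_of_fun K K' hK (fun a => ((ρ a : P) : P ⧸ M)) ?_
  intro a ha b hb hab
  refine ⟨K.mul_mem (K.inv_mem ha) hb, ?_⟩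
  rw [h _ (K.inv_mem ha) _ hb, rho_inv h ha]
  exact QuotientGroup.eq.1 hab

theorem exists_additive {p : P} (hp : VR p) (hinf : ∀ n : ℤ, p ^ n = 1 → n = 0) :
    ∃ (K : Subgroup P) (F : P → ℤ), K.FiniteIndex ∧
      (∀ a ∈ K, ∀ b ∈ K, F (a * b) = F a + F b) ∧ p ∈ K ∧ F p = 1 := by
  classical
  obtain ⟨K, ρ, hfi, hg, hmul, hmem, hρg⟩ := hp
  have hinj : ∀ m n : ℤ, p ^ m = p ^ n → m = n := by
    intro m n hmn
    have h1 : p ^ (m - n) = 1 := by rw [zpow_sub, hmn, mul_inv_cancel]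
    have := hinf _ h1
    omega
  have hex : ∀ a, ∃ n : ℤ, a ∈ K → ρ a = p ^ n := by
    intro a
    by_cases ha : a ∈ K
    · obtain ⟨n, hn⟩ := Subgroup.mem_zpowers_iff.1 (hmem a ha)
      exact ⟨n, fun _ => hn.symm⟩
    · exact ⟨0, fun h => absurd h ha⟩
  choose F hF using hex
  refine ⟨K, F, hfi, ?_, hg, ?_⟩
  · intro a ha b hb
    apply hinj
    rw [← hF _ (K.mul_mem ha hb), hmul a ha b hb, hF a ha, hF b hb, zpow_add]
  · apply hinj
    rw [← hF _ hg, hρg, zpow_one]

theorem fin_or_inf (p : P) : (∃ n : ℕ, 0 < n ∧ p ^ n = 1) ∨ (∀ n : ℤ, p ^ n = 1 → n = 0) := by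
  by_cases h : ∃ n : ℕ, 0 < n ∧ p ^ n = 1
  · exact Or.inl h
  · right
    intro n hn
    by_contra hne
    apply h
    refine ⟨n.natAbs, by omega, ?_⟩
    rcases Int.natAbs_eq n with h1 | h1
    · rw [h1, zpow_natCast] at hn; exact hn
    · rw [h1, zpow_neg, zpow_natCast, inv_eq_one] at hn; exact hn

/-- residual finiteness -/
theorem resfin {p : P} (hp : VR p) (hne : p ≠ 1) :
    ∃ N : Subgroup P, N.Normal ∧ N.FiniteIndex ∧ p ∉ N := by
  classical
  rcases fin_or_inf p with ⟨n, hn, hpn⟩ | hinf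
  · obtain ⟨K, ρ, hfi, hg, hmul, hmem, hρg⟩ := hp
    let K' : Subgroup P :=
      { carrier := {a | a ∈ K ∧ ρ a = 1}
        mul_mem' := by
          rintro a b ⟨ha, ha'⟩ ⟨hb, hb'⟩
          exact ⟨K.mul_mem ha hb, by rw [hmul a ha b hb, ha', hb', one_mul]⟩
        one_mem' := ⟨K.one_mem, by rw [rho_one hmul]⟩
        inv_mem' := by
          rintro a ⟨ha, ha'⟩
          exact ⟨K.inv_mem ha, by rw [rho_inv hmul ha, ha', inv_one]⟩ }
    have hfin : Finite (Subgroup.zpowers p) := by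
      have : IsOfFinOrder p := isOfFinOrder_iff_pow_eq_one.2 ⟨n, hn, hpn⟩
      exact (finite_zpowers.2 this).to_subtype
    have hK' : K'.FiniteIndex := by
      refine fi_of_fun K K' hfi (fun a => if h : a ∈ K then
        (⟨ρ a, hmem a h⟩ : Subgroup.zpowers p) else 1) ?_
      intro a ha b hb hab
      simp only [dif_pos ha, dif_pos hb] at hab
      have hab' : ρ a = ρ b := congrArg Subtype.val hab
      exact ⟨K.mul_mem (K.inv_mem ha) hb, by
        rw [hmul _ (K.inv_mem ha) _ hb, rho_inv hmul ha, hab', inv_mul_cancel]⟩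
    refine ⟨K'.normalCore, K'.normalCore_normal, inferInstance, ?_⟩
    intro hpN
    have := (K'.normalCore_le hpN).2
    rw [hρg] at this
    exact hne this
  · obtain ⟨K, F, hfi, hF, hpK, hFp⟩ := exists_additive hp hinf
    obtain ⟨K', hK', hmem⟩ := fi_dvd hfi hF 2 (by norm_num)
    refine ⟨K'.normalCore, K'.normalCore_normal, inferInstance, ?_⟩
    intro hpN
    have := ((hmem p).1 (K'.normalCore_le hpN)).2
    rw [hFp] at this
    omega

theorem normal_conj {N : Subgroup P} (hN : N.Normal) {a : P} (ha : a ∈ N) (x : P) :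
    x⁻¹ * a * x ∈ N := by
  have := hN.conj_mem a ha x⁻¹
  simpa using this

/-- cyclic subgroup separability -/
theorem sep (hP : ∀ p : P, VR p) {l s : P} (hs : s ∉ Subgroup.zpowers l) :
    ∃ N : Subgroup P, N.Normal ∧ N.FiniteIndex ∧ ∀ j : ℤ, s * l ^ j ∉ N := by
  classical
  obtain ⟨K, ρ, hfi, hg, hmul, hmem, hρg⟩ := hP l
  have hlj : ∀ j : ℤ, l ^ j ∈ K := fun j => K.zpow_mem hg j
  have hρl : ∀ j : ℤ, ρ (l ^ j) = l ^ j := by
    have hn : ∀ n : ℕ, ρ (l ^ n) = l ^ n := by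
      intro n
      induction n with
      | zero => simpa using rho_one hmul
      | succ n ih => rw [pow_succ, hmul _ (K.pow_mem hg n) _ hg, ih, hρg]
    intro j
    cases j with
    | ofNat n => simpa using hn n
    | negSucc n => rw [zpow_negSucc, rho_inv hmul (K.pow_mem hg _), hn]
  by_cases hsK : s ∈ K
  · obtain ⟨i, hi⟩ := Subgroup.mem_zpowers_iff.1 (hmem s hsK)
    have hne : s * l ^ (-i) ≠ 1 := by
      intro h
      apply hs
      refine Subgroup.mem_zpowers_iff.2 ⟨i, ?_⟩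
      rw [zpow_neg, mul_inv_eq_one] at h
      exact h.symm
    obtain ⟨N₁, hN₁, hN₁fi, hN₁s⟩ := resfin (hP _) hne
    obtain ⟨K', hK', hmem'⟩ := fi_rho hfi hmul N₁ hN₁fi
    refine ⟨K'.normalCore ⊓ N₁, ?_, ?_, ?_⟩
    · have := K'.normalCore_normal
      exact Subgroup.normal_inf_normal _ _
    · exact inferInstance
    · intro j hj
      apply hN₁s
      have h1 := ((hmem' _).1 (K'.normalCore_le hj.1)).2
      rw [hmul _ hsK _ (hlj j), hρl, ← hi] at h1
      have h2 : s * l ^ (-i) = (s * l ^ j) * (l ^ i * l ^ j)⁻¹ := by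
        rw [zpow_neg, mul_inv_rev]
        have : (l ^ j)⁻¹ * (l ^ i)⁻¹ = (l ^ i)⁻¹ * (l ^ j)⁻¹ := by
          rw [← zpow_neg, ← zpow_neg, ← zpow_add, ← zpow_add, add_comm]
        rw [mul_assoc, ← mul_assoc (l ^ j)]
        simp
      rw [h2]
      exact N₁.mul_mem hj.2 (N₁.inv_mem h1)
  · refine ⟨K.normalCore, K.normalCore_normal, inferInstance, ?_⟩
    intro j hj
    apply hsK
    have h1 := K.normalCore_le hj
    have h2 : s = (s * l ^ j) * (l ^ j)⁻¹ := by group
    rw [h2]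
    exact K.mul_mem h1 (K.inv_mem (hlj j))

/-- finite intersections -/
theorem exists_inter {ι : Type v} [Finite ι] (p : ι → Subgroup P → Prop)
    (hp : ∀ i, ∀ N N' : Subgroup P, N' ≤ N → p i N → p i N')
    (h : ∀ i, ∃ N : Subgroup P, N.Normal ∧ N.FiniteIndex ∧ p i N)
    (N₀ : Subgroup P) (hN₀ : N₀.Normal) (hN₀fi : N₀.FiniteIndex) :
    ∃ N : Subgroup P, N.Normal ∧ N.FiniteIndex ∧ N ≤ N₀ ∧ ∀ i, p i N := by
  choose N h1 h2 h3 using h
  have h4 : (⨅ i, N i).Normal := Subgroup.normal_iInf_normal h1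
  have h5 : (⨅ i, N i).FiniteIndex := Subgroup.finiteIndex_iInf h2
  refine ⟨N₀ ⊓ ⨅ i, N i, Subgroup.normal_inf_normal _ _, inferInstance, inf_le_left, ?_⟩
  intro i
  exact hp i _ _ (inf_le_right.trans (iInf_le _ i)) (h3 i)

end elements


/-! ### exhausting families of normal subgroups -/

section exhaust

variable {P H : Type u} [Group P] [Group H]

theorem exhaust_fin (hP : ∀ p : P, VR p) (α : H →* P) (hα : Function.Injective α) (hH : Finite H)
    (P₀ : Subgroup P) (hP₀ : P₀.Normal) (hP₀fi : P₀.FiniteIndex) {ι : Type} [Finite ι]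
    (s : ι → P) (hs : ∀ i, s i ∉ α.range) :
    ∃ N : Subgroup P, N.Normal ∧ N.FiniteIndex ∧ N ≤ P₀ ∧
      (∀ h, α h ∈ N → h = 1) ∧ ∀ i h, α h * s i ∉ N := by
  obtain ⟨N₁, h1, h2, h3, h4⟩ := exists_inter (ι := H) (fun h N => α h ∈ N → h = 1)
    (fun h N N' hle hN hh => hN (hle hh)) (by
      intro h
      by_cases hh : h = 1
      · exact ⟨⊤, inferInstance, inferInstance, fun _ => hh⟩
      · have : α h ≠ 1 := by
          intro h0
          exact hh (hα (by rw [h0, map_one]))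
        obtain ⟨N, hN, hNfi, hNh⟩ := resfin (hP (α h)) this
        exact ⟨N, hN, hNfi, fun h0 => absurd h0 hNh⟩) P₀ hP₀ hP₀fi
  obtain ⟨N₂, k1, k2, k3, k4⟩ := exists_inter (ι := ι × H) (fun q N => α q.2 * s q.1 ∉ N)
    (fun h N N' hle hN hh => hN (hle hh)) (by
      rintro ⟨i, h⟩
      have : α h * s i ≠ 1 := by
        intro h0
        apply hs i
        refine ⟨h⁻¹, ?_⟩
        rw [map_inv]
        exact (eq_inv_of_mul_eq_one_right h0).symm
      obtain ⟨N, hN, hNfi, hNh⟩ := resfin (hP _) this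
      exact ⟨N, hN, hNfi, hNh⟩) N₁ h1 h2
  exact ⟨N₂, k1, k2, k3.trans h3, fun h hh => h4 h (k3 hh), fun i h => k4 (i, h)⟩

theorem exhaust (hP : ∀ p : P, VR p) (α : H →* P) (hα : Function.Injective α) (l : H)
    (hl : (Subgroup.zpowers l).FiniteIndex)
    (P₀ : Subgroup P) (hP₀ : P₀.Normal) (hP₀fi : P₀.FiniteIndex) {ι : Type} [Finite ι]
    (s : ι → P) (hs : ∀ i, s i ∉ α.range) :
    ∃ a : ℕ, 0 < a ∧ ((∃ n : ℕ, 0 < n ∧ l ^ n = 1) → l ^ a = 1) ∧
      ∀ k : ℕ, 0 < k → ∃ N : Subgroup P, N.Normal ∧ N.FiniteIndex ∧ N ≤ P₀ ∧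
      (∀ h, α h ∈ N ↔ h ∈ Subgroup.zpowers (l ^ (a * k))) ∧ ∀ i h, α h * s i ∉ N := by
  classical
  rcases fin_or_inf l with ⟨n, hn, hln⟩ | hinf
  · have hH : Finite H := by
      have : IsOfFinOrder l := isOfFinOrder_iff_pow_eq_one.2 ⟨n, hn, hln⟩
      have h1 : Finite (Subgroup.zpowers l) := (finite_zpowers.2 this).to_subtype
      exact Finite.of_equiv _ (Subgroup.groupEquivQuotientProdSubgroup (s := Subgroup.zpowers l)).symm
    obtain ⟨N, h1, h2, h3, h4, h5⟩ := exhaust_fin hP α hα hH P₀ hP₀ hP₀fi s hs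
    refine ⟨n, hn, fun _ => hln, fun k hk => ⟨N, h1, h2, h3, ?_, h5⟩⟩
    intro h
    rw [pow_mul, hln, one_pow, Subgroup.zpowers_one_eq_bot, Subgroup.mem_bot]
    constructor
    · exact h4 h
    · rintro rfl
      rw [map_one]; exact N.one_mem
  · have hαl : ∀ n : ℤ, (α l) ^ n = 1 → n = 0 := by
      intro n hn
      apply hinf
      apply hα
      rw [map_zpow, hn, map_one]
    obtain ⟨K, F, hK, hF, hlK, hFl⟩ := exists_additive (hP (α l)) hαl
    have hmemz : ∀ h : H, α h ∈ Subgroup.zpowers (α l) → h ∈ Subgroup.zpowers l := by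
      intro h hh
      obtain ⟨m, hm⟩ := Subgroup.mem_zpowers_iff.1 hh
      refine Subgroup.mem_zpowers_iff.2 ⟨m, hα ?_⟩
      rw [map_zpow, hm]
    obtain ⟨N₀, a1, a2, a3, a4⟩ := exists_inter (ι := H ⧸ Subgroup.zpowers l)
      (fun c N => c.out ∉ Subgroup.zpowers l → ∀ j : ℤ, α c.out * (α l) ^ j ∉ N)
      (fun h N N' hle hN hh j h0 => hN hh j (hle h0)) (by
        intro c
        by_cases hc : c.out ∈ Subgroup.zpowers l
        · exact ⟨⊤, inferInstance, inferInstance, fun h => absurd hc h⟩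
        · obtain ⟨N, hN, hNfi, hNh⟩ := sep hP (fun h0 => hc (hmemz _ h0))
          exact ⟨N, hN, hNfi, fun _ => hNh⟩) (P₀ ⊓ K.normalCore)
      (by have := K.normalCore_normal; exact Subgroup.normal_inf_normal _ _) inferInstance
    obtain ⟨N₁, b1, b2, b3, b4⟩ := exists_inter (ι := ι × (H ⧸ Subgroup.zpowers l))
      (fun q N => ∀ j : ℤ, α (q.2.out)⁻¹ * s q.1 * (α l) ^ j ∉ N)
      (fun h N N' hle hN j h0 => hN j (hle h0)) (by
        rintro ⟨i, c⟩
        have : α (c.out)⁻¹ * s i ∉ Subgroup.zpowers (α l) := by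
          intro h0
          obtain ⟨m, hm⟩ := Subgroup.mem_zpowers_iff.1 h0
          apply hs i
          refine ⟨c.out * l ^ m, ?_⟩
          rw [map_mul, map_zpow, hm, map_inv]
          simp
        obtain ⟨N, hN, hNfi, hNh⟩ := sep hP this
        exact ⟨N, hN, hNfi, hNh⟩) N₀ a1 a2
    have hN₁K : N₁ ≤ K := fun x hx => K.normalCore_le (a3 (b3 hx)).2
    have hN₁P : N₁ ≤ P₀ := fun x hx => (a3 (b3 hx)).1
    have hFN : ∀ a ∈ N₁, ∀ b ∈ N₁, F (a * b) = F a + F b := fun a ha b hb =>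
      hF a (hN₁K ha) b (hN₁K hb)
    have hcyc : ∀ h, α h ∈ N₁ → h ∈ Subgroup.zpowers l := by
      intro h hh
      by_contra hnot
      set c : H ⧸ Subgroup.zpowers l := (h : H ⧸ Subgroup.zpowers l) with hc
      have h1 : c.out⁻¹ * h ∈ Subgroup.zpowers l := by
        rw [← QuotientGroup.eq]; exact QuotientGroup.out_eq' _
      obtain ⟨j, hj⟩ := Subgroup.mem_zpowers_iff.1 h1
      have h2 : c.out ∉ Subgroup.zpowers l := by
        intro h3
        apply hnot
        have : h = c.out * (c.out⁻¹ * h) := by group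
        rw [this]
        exact Subgroup.mul_mem _ h3 h1
      apply a4 c h2 j
      rw [← map_zpow, ← map_mul, hj]
      have : c.out * (c.out⁻¹ * h) = h := by group
      rw [this]
      exact b3 hh
    have havoid : ∀ i h, α h * s i ∉ N₁ := by
      intro i h hh
      set c : H ⧸ Subgroup.zpowers l := ((h⁻¹ : H) : H ⧸ Subgroup.zpowers l) with hc
      have h1 : c.out⁻¹ * h⁻¹ ∈ Subgroup.zpowers l := by
        rw [← QuotientGroup.eq]; exact QuotientGroup.out_eq' _
      obtain ⟨j, hj⟩ := Subgroup.mem_zpowers_iff.1 h1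
      apply b4 (i, c) (-j)
      have h2 := normal_conj b1 hh ((α l) ^ (-j))
      convert h2 using 1
      have h3 : h = l ^ (-j) * c.out⁻¹ := by
        rw [zpow_neg, hj]; group
      rw [h3, map_mul, map_zpow]
      simp only [mul_assoc, inv_mul_cancel_left]
    -- the additive group of exponents
    let T : AddSubgroup ℤ :=
      { carrier := {n : ℤ | (α l) ^ n ∈ N₁}
        add_mem' := by
          intro a b ha hb
          show (α l) ^ (a + b) ∈ N₁
          rw [zpow_add]; exact N₁.mul_mem ha hb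
        zero_mem' := by
          show (α l) ^ (0 : ℤ) ∈ N₁
          rw [zpow_zero]; exact N₁.one_mem
        neg_mem' := by
          intro a ha
          show (α l) ^ (-a) ∈ N₁
          rw [zpow_neg]; exact N₁.inv_mem ha }
    obtain ⟨a', ha'⟩ : ∃ a' : ℤ, T = AddSubgroup.zmultiples a' := by
      obtain ⟨a', h⟩ := Int.subgroup_cyclic T
      exact ⟨a', by rw [h, AddSubgroup.zmultiples_eq_closure]⟩
    have hTmem : ∀ n : ℤ, (α l) ^ n ∈ N₁ ↔ (a'.natAbs : ℤ) ∣ n := by
      intro n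
      have h1 : (α l) ^ n ∈ N₁ ↔ n ∈ T := Iff.rfl
      rw [h1, ha', Int.mem_zmultiples_iff, Int.natAbs_dvd]
    set a : ℕ := a'.natAbs with ha
    have hapos : 0 < a := by
      rw [Nat.pos_iff_ne_zero]
      intro h0
      have h1 : (α l) ^ ((N₁.index : ℕ) : ℤ) ∈ N₁ := by
        rw [zpow_natCast]; exact N₁.pow_index_mem _
      rw [hTmem, h0] at h1
      simp only [Nat.cast_zero, zero_dvd_iff, Nat.cast_eq_zero] at h1
      exact b2.index_ne_zero h1
    have hla : α (l ^ a) ∈ N₁ := by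
      rw [map_pow, ← zpow_natCast, hTmem]
    let d : P → ℤ := fun x => F (x * α (l ^ a) * x⁻¹)
    obtain ⟨δ, hδ⟩ : ∃ δ : ℤ, AddSubgroup.closure (Set.range d) = AddSubgroup.zmultiples δ := by
      obtain ⟨δ, h⟩ := Int.subgroup_cyclic (AddSubgroup.closure (Set.range d))
      exact ⟨δ, by rw [h, AddSubgroup.zmultiples_eq_closure]⟩
    have hδd : ∀ x, δ ∣ d x := by
      intro x
      have : d x ∈ AddSubgroup.closure (Set.range d) := AddSubgroup.subset_closure ⟨x, rfl⟩
      rw [hδ, Int.mem_zmultiples_iff] at this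
      exact this
    have hδ' : ∀ m n : ℤ, (∀ x, m ∣ n * d x) → m ∣ n * δ := by
      intro m n h
      have h1 : δ ∈ AddSubgroup.closure (Set.range d) := by
        rw [hδ]; exact AddSubgroup.mem_zmultiples δ
      clear hδ hδd
      induction h1 using AddSubgroup.closure_induction with
      | mem x hx =>
        obtain ⟨y, rfl⟩ := hx
        exact h y
      | zero => simp
      | add x y _ _ hx hy => rw [mul_add]; exact dvd_add hx hy
      | neg x _ hx => rw [mul_neg]; exact (dvd_neg).2 hx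
    have hd1 : d 1 = a := by
      show F (1 * α (l ^ a) * 1⁻¹) = a
      rw [one_mul, inv_one, mul_one, map_pow, add_pow hF hlK, hFl, mul_one]
    have hδ0 : δ ≠ 0 := by
      intro h0
      have := hδd 1
      rw [h0, zero_dvd_iff, hd1] at this
      omega
    refine ⟨a, hapos, ?_, ?_⟩
    · rintro ⟨n, hn, hln⟩
      exfalso
      have := hinf n (by rw [zpow_natCast]; exact hln)
      omega
    intro k hk
    have hm0 : δ * (k : ℤ) ≠ 0 := mul_ne_zero hδ0 (by exact_mod_cast hk.ne')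
    obtain ⟨K', hK', hmem⟩ := fi_dvd b2 hFN (δ * k) hm0
    have hNc : ∀ y, y ∈ K'.normalCore ↔ ∀ x, x * y * x⁻¹ ∈ K' := fun y => Iff.rfl
    have hNcle : K'.normalCore ≤ N₁ := fun x hx => ((hmem x).1 (K'.normalCore_le hx)).1
    refine ⟨K'.normalCore, K'.normalCore_normal, inferInstance, hNcle.trans hN₁P, ?_, ?_⟩
    · intro h
      constructor
      · intro hh
        obtain ⟨n, hn⟩ := Subgroup.mem_zpowers_iff.1 (hcyc h (hNcle hh))
        have h1 : (α l) ^ n ∈ N₁ := by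
          rw [← map_zpow, hn]; exact hNcle hh
        rw [hTmem] at h1
        obtain ⟨c, hc⟩ := h1
        have h2 : h = (l ^ a) ^ c := by
          rw [← hn, hc, zpow_mul, zpow_natCast]
        have h3 : ∀ x, δ * k ∣ c * d x := by
          intro x
          have h4 := ((hmem _).1 ((hNc _).1 hh x)).2
          have h5 : x * α h * x⁻¹ = (x * α (l ^ a) * x⁻¹) ^ c := by
            rw [conj_zpow, h2, map_zpow]
          rw [h5, add_zpow hFN (b1.conj_mem _ hla x)] at h4
          exact h4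
        have h4 := hδ' _ _ h3
        rw [mul_comm c δ] at h4
        have h5 := (mul_dvd_mul_iff_left hδ0).1 h4
        obtain ⟨e, he⟩ := h5
        refine Subgroup.mem_zpowers_iff.2 ⟨e, ?_⟩
        rw [h2, he, zpow_mul, pow_mul, zpow_natCast]
      · intro hh
        obtain ⟨e, he⟩ := Subgroup.mem_zpowers_iff.1 hh
        rw [hNc]
        intro x
        have h2 : h = (l ^ a) ^ ((k : ℤ) * e) := by
          rw [← he, zpow_mul, pow_mul, zpow_natCast]
        have h5 : x * α h * x⁻¹ = (x * α (l ^ a) * x⁻¹) ^ ((k : ℤ) * e) := by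
          rw [conj_zpow, h2, map_zpow]
        have h6 := b1.conj_mem _ hla x
        rw [hmem]
        constructor
        · rw [h5]; exact N₁.zpow_mem h6 _
        · rw [h5, add_zpow hFN h6]
          obtain ⟨f, hf⟩ := hδd x
          refine ⟨e * f, ?_⟩
          show (k : ℤ) * e * d x = _
          rw [hf]; ring
    · intro i h hh
      exact havoid i h (hNcle hh)

end exhaust


/-! ### the building block for actions of amalgamated products -/

/-- abstract form of an amalgamated free product -/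
structure Amalg (H P Q G : Type u) [Group H] [Group P] [Group Q] [Group G] where
  α : H →* P
  β : H →* Q
  hα : Function.Injective α
  hβ : Function.Injective β
  i : P →* G
  j : Q →* G
  comm : ∀ h, i (α h) = j (β h)
  lift : ∀ (A : Type u) [Group A] (f : P →* A) (g : Q →* A), (∀ h, f (α h) = g (β h)) →
    ∃ ψ : G →* A, (∀ p, ψ (i p) = f p) ∧ ∀ q, ψ (j q) = g q
  gen : Subgroup.closure (Set.range i ∪ Set.range j) = ⊤

theorem exists_trans {P H : Type u} [Group P] [Group H] (α : H →* P) (P₁ : Subgroup P)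
    (hn : P₁.Normal) (hfi : P₁.FiniteIndex) (L : Subgroup H) (hL : ∀ h, α h ∈ P₁ ↔ h ∈ L) :
    ∃ (T : Type u) (_ : Finite T) (τ : T → P) (idx : P → (H ⧸ L) × T),
      (∀ p, (α (idx p).1.out * τ (idx p).2)⁻¹ * p ∈ P₁) ∧
      ∀ p (x : (H ⧸ L) × T), (α x.1.out * τ x.2)⁻¹ * p ∈ P₁ → idx p = x := by
  classical
  let M : Subgroup P :=
    { carrier := {m | ∃ h, α h * m ∈ P₁}
      mul_mem' := by
        rintro a b ⟨h, hh⟩ ⟨h', hh'⟩
        refine ⟨h' * h, ?_⟩
        have : α (h' * h) * (a * b) = (α h' * (α h * a) * (α h')⁻¹) * (α h' * b) := by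
          rw [map_mul]; group
        rw [this]
        exact P₁.mul_mem (hn.conj_mem _ hh _) hh'
      one_mem' := ⟨1, by simp [P₁.one_mem]⟩
      inv_mem' := by
        rintro a ⟨h, hh⟩
        refine ⟨h⁻¹, ?_⟩
        have : α h⁻¹ * a⁻¹ = (α h)⁻¹ * (α h * a)⁻¹ * α h := by
          rw [map_inv]; group
        rw [this]
        exact normal_conj hn (P₁.inv_mem hh) _ }
  have hPM : P₁ ≤ M := fun x hx => ⟨1, by simpa using hx⟩
  have hMfi : M.FiniteIndex := Subgroup.finiteIndex_of_le hPM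
  let T := Quotient (QuotientGroup.rightRel M)
  have hT : Finite T := Finite.of_equiv _ (QuotientGroup.quotientRightRelEquivQuotientLeftRel M).symm
  have hrel : ∀ a b : P, (Quotient.mk'' a : T) = Quotient.mk'' b ↔ b * a⁻¹ ∈ M := by
    intro a b
    rw [Quotient.eq'', QuotientGroup.rightRel_apply]
  have hex : ∀ p : P, ∃ x : (H ⧸ L) × T, (α x.1.out * (Quotient.out x.2 : P))⁻¹ * p ∈ P₁ := by
    intro p
    set t : T := Quotient.mk'' p with ht
    have h1 : p * (Quotient.out t : P)⁻¹ ∈ M := by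
      rw [← hrel, ← ht]
      exact Quotient.out_eq' t
    obtain ⟨h, hh⟩ := h1
    set c : H ⧸ L := ((h⁻¹ : H) : H ⧸ L) with hc
    have h2 : c.out⁻¹ * h⁻¹ ∈ L := by
      rw [← QuotientGroup.eq]; exact QuotientGroup.out_eq' _
    have h3 := (hL _).2 h2
    refine ⟨(c, t), ?_⟩
    have h4 : (α c.out * (Quotient.out t : P))⁻¹ * p =
        (Quotient.out t : P)⁻¹ * (α (c.out⁻¹ * h⁻¹) * (α h * (p * (Quotient.out t : P)⁻¹))) *
          (Quotient.out t : P) := by
      rw [map_mul, map_inv, map_inv]; group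
    show (α c.out * (Quotient.out t : P))⁻¹ * p ∈ P₁
    rw [h4]
    exact normal_conj hn (P₁.mul_mem h3 hh) _
  choose idx hidx using hex
  refine ⟨T, hT, fun t => Quotient.out t, idx, hidx, ?_⟩
  intro p x hx
  have h0 := hidx p
  obtain ⟨c, t⟩ := x
  rcases hxx : idx p with ⟨c', t'⟩
  rw [hxx] at h0
  simp only at h0 hx
  have h1 : (α c.out * (Quotient.out t : P))⁻¹ * (α c'.out * (Quotient.out t' : P)) ∈ P₁ := by
    have : (α c.out * (Quotient.out t : P))⁻¹ * (α c'.out * (Quotient.out t' : P)) =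
      ((α c.out * (Quotient.out t : P))⁻¹ * p) * ((α c'.out * (Quotient.out t' : P))⁻¹ * p)⁻¹ := by
      group
    rw [this]
    exact P₁.mul_mem hx (P₁.inv_mem h0)
  have h2 : α (c.out⁻¹ * c'.out) * ((Quotient.out t' : P) * (Quotient.out t : P)⁻¹) ∈ P₁ := by
    have h3 := hn.conj_mem _ h1 (Quotient.out t : P)
    convert h3 using 1
    rw [map_mul, map_inv]; group
  have h3 : t = t' := by
    have h4 : (Quotient.out t' : P) * (Quotient.out t : P)⁻¹ ∈ M := ⟨_, h2⟩
    rw [← hrel] at h4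
    have h5 : (Quotient.mk'' (Quotient.out t : P) : T) = t := Quotient.out_eq' t
    have h6 : (Quotient.mk'' (Quotient.out t' : P) : T) = t' := Quotient.out_eq' t'
    rw [h5, h6] at h4
    exact h4
  subst h3
  rw [mul_inv_cancel, mul_one, hL] at h2
  have h7 : c = c' := by
    rw [← QuotientGroup.eq, QuotientGroup.out_eq', QuotientGroup.out_eq'] at h2
    exact h2
  rw [h7]

theorem induced {P : Type u} [Group P] (P₁ : Subgroup P) {I : Type v} {D : Type v}
    (r : I → P) (idx : P → I) (h1 : ∀ p, (r (idx p))⁻¹ * p ∈ P₁)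
    (h2 : ∀ p x, (r x)⁻¹ * p ∈ P₁ → idx p = x) (A : P → Equiv.Perm D)
    (hA : ∀ a ∈ P₁, ∀ b ∈ P₁, A (a * b) = A a * A b) :
    ∃ f : P →* Equiv.Perm (I × D), ∀ p x x' δ, (r x')⁻¹ * (p * r x) ∈ P₁ →
      f p (x, δ) = (x', A ((r x')⁻¹ * (p * r x)) δ) := by
  have hA1 : A 1 = 1 := by
    have := hA 1 P₁.one_mem 1 P₁.one_mem
    rw [mul_one] at this
    exact left_eq_mul.1 this
  have key : ∀ p x x' , (r x')⁻¹ * (p * r x) ∈ P₁ → ∀ δ : D,
      (((idx (p * r x), A ((r (idx (p * r x)))⁻¹ * (p * r x)) δ) : I × D)) =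
        (x', A ((r x')⁻¹ * (p * r x)) δ) := by
    intro p x x' h δ
    rw [h2 _ _ h]
  let f0 : P →* Function.End (I × D) :=
    { toFun := fun p => fun y => (idx (p * r y.1), A ((r (idx (p * r y.1)))⁻¹ * (p * r y.1)) y.2)
      map_one' := by
        funext y
        obtain ⟨x, δ⟩ := y
        have h3 : (r x)⁻¹ * (1 * r x) ∈ P₁ := by
          rw [one_mul, inv_mul_cancel]; exact P₁.one_mem
        show (idx (1 * r x), A ((r (idx (1 * r x)))⁻¹ * (1 * r x)) δ) = (x, δ)
        rw [key 1 x x h3, one_mul, inv_mul_cancel, hA1]; rfl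
      map_mul' := by
        intro p p'
        funext y
        obtain ⟨x, δ⟩ := y
        show (idx ((p * p') * r x), A ((r (idx ((p * p') * r x)))⁻¹ * ((p * p') * r x)) δ) =
          (idx (p * r (idx (p' * r x))), A ((r (idx (p * r (idx (p' * r x)))))⁻¹ *
            (p * r (idx (p' * r x)))) (A ((r (idx (p' * r x)))⁻¹ * (p' * r x)) δ))
        set x' := idx (p' * r x) with hx'
        have h3 : (r x')⁻¹ * (p' * r x) ∈ P₁ := h1 _
        set x'' := idx (p * r x') with hx''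
        have h4 : (r x'')⁻¹ * (p * r x') ∈ P₁ := h1 _
        have h5 : (r x'')⁻¹ * ((p * p') * r x) =
            ((r x'')⁻¹ * (p * r x')) * ((r x')⁻¹ * (p' * r x)) := by group
        have h6 : (r x'')⁻¹ * ((p * p') * r x) ∈ P₁ := by
          rw [h5]; exact P₁.mul_mem h4 h3
        rw [key _ _ _ h6, h5, hA _ h4 _ h3]; rfl }
  refine ⟨f0.toHomPerm, ?_⟩
  intro p x x' δ h
  exact key p x x' h δ

theorem Amalg.builder {H P Q G : Type u} [Group H] [Group P] [Group Q] [Group G]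
    (X : Amalg H P Q G) (P₁ : Subgroup P) (Q₁ : Subgroup Q) (L : Subgroup H)
    (hPn : P₁.Normal) (hQn : Q₁.Normal)
    (hLP : ∀ h, X.α h ∈ P₁ ↔ h ∈ L) (hLQ : ∀ h, X.β h ∈ Q₁ ↔ h ∈ L)
    {T : Type u} (τ : T → P) (idx : P → (H ⧸ L) × T)
    (h1 : ∀ p, (X.α (idx p).1.out * τ (idx p).2)⁻¹ * p ∈ P₁)
    (h2 : ∀ p (x : (H ⧸ L) × T), (X.α x.1.out * τ x.2)⁻¹ * p ∈ P₁ → idx p = x)
    {U : Type u} (υ : U → Q) (idx' : Q → (H ⧸ L) × U)
    (h1' : ∀ p, (X.β (idx' p).1.out * υ (idx' p).2)⁻¹ * p ∈ Q₁)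
    (h2' : ∀ p (x : (H ⧸ L) × U), (X.β x.1.out * υ x.2)⁻¹ * p ∈ Q₁ → idx' p = x)
    {D : Type u} (A : P → Equiv.Perm D) (hA : ∀ a ∈ P₁, ∀ b ∈ P₁, A (a * b) = A a * A b)
    (B : Q → Equiv.Perm D) (hB : ∀ a ∈ Q₁, ∀ b ∈ Q₁, B (a * b) = B a * B b)
    (θ : T → U → Equiv.Perm D)
    (hθ : ∀ t u, ∀ l ∈ L, θ t u * A ((τ t)⁻¹ * X.α l * τ t) =
      B ((υ u)⁻¹ * X.β l * υ u) * θ t u) :
    ∃ ψ : G →* Equiv.Perm (((H ⧸ L) × T) × (U × D)),
      (∀ p c t c' t' u δ, (X.α (Quotient.out c') * τ t')⁻¹ * (p * (X.α (Quotient.out c) * τ t)) ∈ P₁ →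
        ψ (X.i p) ((c, t), (u, δ)) =
          ((c', t'), (u, A ((X.α (Quotient.out c') * τ t')⁻¹ * (p * (X.α (Quotient.out c) * τ t))) δ))) ∧
      (∀ q c u c' u' t δ, (X.β (Quotient.out c') * υ u')⁻¹ * (q * (X.β (Quotient.out c) * υ u)) ∈ Q₁ →
        ψ (X.j q) ((c, t), (u, δ)) =
          ((c', t), (u', (θ t u')⁻¹ (B ((X.β (Quotient.out c') * υ u')⁻¹ * (q * (X.β (Quotient.out c) * υ u)))
            (θ t u δ))))) := by
  classical
  obtain ⟨f, hf⟩ := induced P₁ (I := (H ⧸ L) × T) (D := U × D)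
    (fun x => X.α x.1.out * τ x.2) idx h1 h2
    (fun p => Equiv.prodCongr (Equiv.refl U) (A p)) (by
      intro a ha b hb
      rw [hA a ha b hb]
      ext x <;> rfl)
  obtain ⟨g, hg⟩ := induced Q₁ (I := (H ⧸ L) × U) (D := T × D)
    (fun x => X.β x.1.out * υ x.2) idx' h1' h2'
    (fun p => Equiv.prodCongr (Equiv.refl T) (B p)) (by
      intro a ha b hb
      rw [hB a ha b hb]
      ext x <;> rfl)
  let Θ : (((H ⧸ L) × T) × (U × D)) ≃ (((H ⧸ L) × U) × (T × D)) :=
    { toFun := fun y => ((y.1.1, y.2.1), (y.1.2, θ y.1.2 y.2.1 y.2.2))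
      invFun := fun y => ((y.1.1, y.2.1), (y.1.2, (θ y.2.1 y.1.2)⁻¹ y.2.2))
      left_inv := by
        rintro ⟨⟨c, t⟩, ⟨u, δ⟩⟩
        simp
      right_inv := by
        rintro ⟨⟨c, t⟩, ⟨u, δ⟩⟩
        simp }
  let g' : Q →* Equiv.Perm (((H ⧸ L) × T) × (U × D)) :=
    MonoidHom.mk' (fun q => (Θ.trans (g q)).trans Θ.symm) (by
      intro a b
      ext1 y
      simp [map_mul, Equiv.Perm.mul_apply])
  obtain ⟨ψ, hψ1, hψ2⟩ := X.lift _ f g' (by
    intro h
    ext1 y
    obtain ⟨⟨c, t⟩, ⟨u, δ⟩⟩ := y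
    set c' : H ⧸ L := ((h * c.out : H) : H ⧸ L) with hc'
    have hl : c'.out⁻¹ * (h * c.out) ∈ L := by
      rw [← QuotientGroup.eq]; exact QuotientGroup.out_eq' _
    set l := c'.out⁻¹ * (h * c.out) with hldef
    have e1 : (X.α c'.out * τ t)⁻¹ * (X.α h * (X.α c.out * τ t)) = (τ t)⁻¹ * X.α l * τ t := by
      rw [hldef, map_mul, map_mul, map_inv]; group
    have e2 : (X.β c'.out * υ u)⁻¹ * (X.β h * (X.β c.out * υ u)) = (υ u)⁻¹ * X.β l * υ u := by
      rw [hldef, map_mul, map_mul, map_inv]; group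
    have m1 : (X.α c'.out * τ t)⁻¹ * (X.α h * (X.α c.out * τ t)) ∈ P₁ := by
      rw [e1]; exact normal_conj hPn ((hLP _).2 hl) _
    have m2 : (X.β c'.out * υ u)⁻¹ * (X.β h * (X.β c.out * υ u)) ∈ Q₁ := by
      rw [e2]; exact normal_conj hQn ((hLQ _).2 hl) _
    have k1 := hf (X.α h) (c, t) (c', t) (u, δ) m1
    have k2 := hg (X.β h) (c, u) (c', u) (t, θ t u δ) m2
    show f (X.α h) ((c, t), (u, δ)) = Θ.symm (g (X.β h) ((c, u), (t, θ t u δ)))
    rw [k1, k2]
    simp only at e1 e2 ⊢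
    rw [e1, e2]
    show ((c', t), (u, A ((τ t)⁻¹ * X.α l * τ t) δ)) =
      ((c', t), (u, (θ t u)⁻¹ (B ((υ u)⁻¹ * X.β l * υ u) (θ t u δ))))
    have k3 := congrArg (fun e : Equiv.Perm D => (θ t u)⁻¹ (e δ)) (hθ t u l hl)
    simp only [Equiv.Perm.mul_apply] at k3
    have k4 : ∀ z : D, (θ t u)⁻¹ (θ t u z) = z := fun z => by simp
    rw [k4] at k3
    rw [k3])
  refine ⟨ψ, ?_, ?_⟩
  · intro p c t c' t' u δ h
    rw [hψ1]
    exact hf p (c, t) (c', t') (u, δ) h
  · intro q c u c' u' t δ h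
    rw [hψ2]
    show Θ.symm (g q ((c, u), (t, θ t u δ))) = _
    rw [hg q (c, u) (c', u') (t, θ t u δ) h]
    rfl


/-! ### detection of virtual retracts by actions commuting with a shift -/

theorem detect {G : Type u} [Group G] {Ω Y : Type v} [Finite Y] (ψ : G →* Equiv.Perm Ω)
    (s : Equiv.Perm Ω) (π : Ω → Y) (hcomm : ∀ g z, ψ g (s z) = s (ψ g z))
    (hfib : ∀ z z', π z = π z' → ∃ k : ℤ, z' = (s ^ k) z) (z₀ : Ω)
    (hfree : ∀ k : ℤ, (s ^ k) z₀ = z₀ → k = 0) {g : G} {M : ℕ} (hM : 0 < M) {t : ℤ}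
    (ht : t ≠ 0) (hg : ψ (g ^ M) z₀ = (s ^ t) z₀) : VR g := by
  classical
  have hcomm' : ∀ g (k : ℤ) z, ψ g ((s ^ k) z) = (s ^ k) (ψ g z) := by
    intro g k z
    have h1 : Commute (ψ g) s := by
      apply Equiv.ext
      intro z
      exact hcomm g z
    have h2 := h1.zpow_right k
    exact congrArg (fun e : Equiv.Perm Ω => e z) h2
  have hinj : ∀ k m : ℤ, (s ^ k) z₀ = (s ^ m) z₀ → k = m := by
    intro k m h
    have h1 : (s ^ (k - m)) z₀ = z₀ := by
      have h2 : (s ^ (-m)) ((s ^ k) z₀) = (s ^ (-m)) ((s ^ m) z₀) := by rw [h]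
      rw [← Equiv.Perm.mul_apply, ← Equiv.Perm.mul_apply, ← zpow_add, ← zpow_add,
        neg_add_cancel, zpow_zero] at h2
      rw [sub_eq_add_neg, add_comm, h2]; rfl
    have := hfree _ h1
    omega
  let K : Subgroup G :=
    { carrier := {g | ∃ k : ℤ, ψ g z₀ = (s ^ k) z₀}
      mul_mem' := by
        rintro a b ⟨k, hk⟩ ⟨m, hm⟩
        refine ⟨m + k, ?_⟩
        rw [map_mul, Equiv.Perm.mul_apply, hm, hcomm', hk, zpow_add, Equiv.Perm.mul_apply]
      one_mem' := ⟨0, by simp⟩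
      inv_mem' := by
        rintro a ⟨k, hk⟩
        refine ⟨-k, ?_⟩
        have h1 : ψ a ((s ^ (-k)) z₀) = z₀ := by
          rw [hcomm', hk, ← Equiv.Perm.mul_apply, ← zpow_add, neg_add_cancel, zpow_zero]; rfl
        have h2 : ψ a⁻¹ (ψ a ((s ^ (-k)) z₀)) = (s ^ (-k)) z₀ := by
          rw [← Equiv.Perm.mul_apply, ← map_mul, inv_mul_cancel, map_one]; rfl
        rw [h1] at h2
        exact h2 }
  have hKfi : K.FiniteIndex := by
    refine fi_of_fun ⊤ K inferInstance (fun g => π (ψ g z₀)) ?_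
    intro a _ b _ hab
    obtain ⟨k, hk⟩ := hfib _ _ hab
    refine ⟨k, ?_⟩
    rw [map_mul, Equiv.Perm.mul_apply, hk, hcomm', ← Equiv.Perm.mul_apply (ψ a⁻¹),
      ← map_mul, inv_mul_cancel, map_one]; rfl
  have hex : ∀ a, ∃ k : ℤ, a ∈ K → ψ a z₀ = (s ^ k) z₀ := by
    intro a
    by_cases ha : a ∈ K
    · obtain ⟨k, hk⟩ := ha
      exact ⟨k, fun _ => hk⟩
    · exact ⟨0, fun h => absurd h ha⟩
  choose F hF using hex
  have hgK : g ^ M ∈ K := ⟨t, hg⟩
  refine vr_of_pow (K := K) (F := F) hKfi ?_ hM hgK ?_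
  · intro a ha b hb
    apply hinj
    rw [← hF _ (K.mul_mem ha hb), map_mul, Equiv.Perm.mul_apply, hF b hb, hcomm', hF a ha,
      ← Equiv.Perm.mul_apply, ← zpow_add, add_comm]
  · have : F (g ^ M) = t := by
      apply hinj
      rw [← hF _ hgK, hg]
    rw [this]; exact ht

theorem Amalg.main {H P Q G : Type u} [Group H] [Group P] [Group Q] [Group G]
    (X : Amalg H P Q G) (P₁ : Subgroup P) (Q₁ : Subgroup Q) (L : Subgroup H)
    (hPn : P₁.Normal) (hQn : Q₁.Normal) (hLfin : Finite (H ⧸ L))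
    (hLP : ∀ h, X.α h ∈ P₁ ↔ h ∈ L) (hLQ : ∀ h, X.β h ∈ Q₁ ↔ h ∈ L)
    {T : Type u} [Finite T] (τ : T → P) (idx : P → (H ⧸ L) × T)
    (h1 : ∀ p, (X.α (idx p).1.out * τ (idx p).2)⁻¹ * p ∈ P₁)
    (h2 : ∀ p (x : (H ⧸ L) × T), (X.α x.1.out * τ x.2)⁻¹ * p ∈ P₁ → idx p = x)
    {U : Type u} [Finite U] (υ : U → Q) (idx' : Q → (H ⧸ L) × U)
    (h1' : ∀ p, (X.β (idx' p).1.out * υ (idx' p).2)⁻¹ * p ∈ Q₁)
    (h2' : ∀ p (x : (H ⧸ L) × U), (X.β x.1.out * υ x.2)⁻¹ * p ∈ Q₁ → idx' p = x)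
    {E : Type u} [Finite E] (A : P → Equiv.Perm (E × ℤ))
    (hA : ∀ a ∈ P₁, ∀ b ∈ P₁, A (a * b) = A a * A b)
    (B : Q → Equiv.Perm (E × ℤ)) (hB : ∀ a ∈ Q₁, ∀ b ∈ Q₁, B (a * b) = B a * B b)
    (θ : T → U → Equiv.Perm (E × ℤ))
    (hθ : ∀ t u, ∀ l ∈ L, θ t u * A ((τ t)⁻¹ * X.α l * τ t) =
      B ((υ u)⁻¹ * X.β l * υ u) * θ t u)
    (cA : ∀ a ∈ P₁, ∀ e k, A a (e, k + 1) = ((A a (e, k)).1, (A a (e, k)).2 + 1))
    (cB : ∀ a ∈ Q₁, ∀ e k, B a (e, k + 1) = ((B a (e, k)).1, (B a (e, k)).2 + 1))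
    (cθ : ∀ t u e k, θ t u (e, k + 1) = ((θ t u (e, k)).1, (θ t u (e, k)).2 + 1)) :
    ∃ ψ : G →* Equiv.Perm (((H ⧸ L) × T) × (U × (E × ℤ))),
      (∀ p c t c' t' u δ, (X.α (Quotient.out c') * τ t')⁻¹ * (p * (X.α (Quotient.out c) * τ t)) ∈ P₁ →
        ψ (X.i p) ((c, t), (u, δ)) =
          ((c', t'), (u, A ((X.α (Quotient.out c') * τ t')⁻¹ * (p * (X.α (Quotient.out c) * τ t))) δ))) ∧
      (∀ q c u c' u' t δ, (X.β (Quotient.out c') * υ u')⁻¹ * (q * (X.β (Quotient.out c) * υ u)) ∈ Q₁ →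
        ψ (X.j q) ((c, t), (u, δ)) =
          ((c', t), (u', (θ t u')⁻¹ (B ((X.β (Quotient.out c') * υ u')⁻¹ * (q * (X.β (Quotient.out c) * υ u)))
            (θ t u δ))))) ∧
      ∀ (g : G) (M : ℕ) (c : H ⧸ L) (t : T) (u : U) (e : E) (n : ℤ), 0 < M → n ≠ 0 →
        ψ (g ^ M) ((c, t), (u, (e, 0))) = ((c, t), (u, (e, n))) → VR g := by
  classical
  obtain ⟨ψ, hψ1, hψ2⟩ := X.builder P₁ Q₁ L hPn hQn hLP hLQ τ idx h1 h2 υ idx' h1' h2' A hA B hB θ hθ
  refine ⟨ψ, hψ1, hψ2, ?_⟩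
  let s : Equiv.Perm (((H ⧸ L) × T) × (U × (E × ℤ))) :=
    { toFun := fun y => (y.1, (y.2.1, (y.2.2.1, y.2.2.2 + 1)))
      invFun := fun y => (y.1, (y.2.1, (y.2.2.1, y.2.2.2 - 1)))
      left_inv := by
        rintro ⟨a, b, c, d⟩
        simp
      right_inv := by
        rintro ⟨a, b, c, d⟩
        simp }
  have hs1 : ∀ y, s y = (y.1, (y.2.1, (y.2.2.1, y.2.2.2 + 1))) := fun y => rfl
  have hs1' : ∀ y, s⁻¹ y = (y.1, (y.2.1, (y.2.2.1, y.2.2.2 - 1))) := fun y => rfl
  have hs : ∀ (k : ℤ) y, (s ^ k) y = (y.1, (y.2.1, (y.2.2.1, y.2.2.2 + k))) := by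
    intro k
    induction k using Int.induction_on with
    | zero => intro y; simp
    | succ k ih =>
      intro y
      rw [zpow_add_one, Equiv.Perm.mul_apply, hs1, ih]
      simp only
      congr 3; ring
    | pred k ih =>
      intro y
      rw [zpow_sub_one, Equiv.Perm.mul_apply, hs1', ih]
      simp only
      congr 3; ring
  have cθ' : ∀ t u e k, (θ t u)⁻¹ (e, k + 1) = (((θ t u)⁻¹ (e, k)).1, ((θ t u)⁻¹ (e, k)).2 + 1) := by
    intro t u e k
    rw [Equiv.Perm.inv_eq_iff_eq]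
    have := cθ t u ((θ t u)⁻¹ (e, k)).1 ((θ t u)⁻¹ (e, k)).2
    rw [this]
    simp
  have hcomm : ∀ g z, ψ g (s z) = s (ψ g z) := by
    intro g
    have hg : g ∈ Subgroup.closure (Set.range X.i ∪ Set.range X.j) := by
      rw [X.gen]; exact Subgroup.mem_top _
    induction hg using Subgroup.closure_induction with
    | mem x hx =>
      rcases hx with ⟨p, rfl⟩ | ⟨q, rfl⟩
      · rintro ⟨⟨c, t⟩, ⟨u, ⟨e, k⟩⟩⟩
        have h0 := h1 (p * (X.α (Quotient.out c) * τ t))
        rw [hs1, hψ1 p c t _ _ u (e, k) h0, hs1]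
        simp only
        rw [hψ1 p c t _ _ u (e, k + 1) h0, cA _ h0]
      · rintro ⟨⟨c, t⟩, ⟨u, ⟨e, k⟩⟩⟩
        have h0 := h1' (q * (X.β (Quotient.out c) * υ u))
        rw [hs1, hψ2 q c u _ _ t (e, k) h0, hs1]
        simp only
        rw [hψ2 q c u _ _ t (e, k + 1) h0, cθ, cB _ h0, cθ']
    | one => intro z; rw [map_one]; rfl
    | mul x y _ _ hx hy =>
      intro z
      rw [map_mul, Equiv.Perm.mul_apply, Equiv.Perm.mul_apply, hy, hx]
    | inv x _ hx =>
      intro z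
      rw [map_inv, Equiv.Perm.inv_eq_iff_eq, hx]
      simp
  intro g M c t u e n hM hn hg
  refine detect ψ s (fun y => (y.1, (y.2.1, y.2.2.1))) hcomm ?_ ((c, t), (u, (e, 0))) ?_ hM hn ?_
  · rintro ⟨a, b, c, d⟩ ⟨a', b', c', d'⟩ h
    simp only [Prod.mk.injEq] at h
    obtain ⟨rfl, rfl, rfl⟩ := h
    refine ⟨d' - d, ?_⟩
    rw [hs]
    simp
  · intro k hk
    rw [hs] at hk
    simpa using hk
  · rw [hg, hs]
    simp


/-! ### elements of the factors -/

section elliptic

theorem conjF_mk {P : Type u} [Group P] {P₁ : Subgroup P} (hn : P₁.Normal) {F : P → ℤ}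
    (hF : ∀ a ∈ P₁, ∀ b ∈ P₁, F (a * b) = F a + F b) {a : P} (ha : a ∈ P₁) (p : P) :
    F (((p : P) : P ⧸ P₁).out⁻¹ * a * ((p : P) : P ⧸ P₁).out) = F (p⁻¹ * a * p) := by
  obtain ⟨n, hn'⟩ := QuotientGroup.mk_out_eq_mul P₁ p
  rw [hn']
  have h1 : (p * (n : P))⁻¹ * a * (p * n) = (n : P)⁻¹ * (p⁻¹ * a * p) * n := by group
  rw [h1]
  exact add_conj hF (normal_conj hn ha p) n.2

/-- the sum twisted by signs -/
noncomputable def sgnSum {X Y : Type u} [Fintype X] [Fintype Y] (f : X × Y → ℤ)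
    (ε : X × Y → ℤˣ) : ℤ := ∑ q, (ε q : ℤ) * f q

theorem Amalg.elliptic_inf {H P Q G : Type u} [Group H] [Group P] [Group Q] [Group G]
    (X : Amalg H P Q G) (P₁ : Subgroup P) (Q₁ : Subgroup Q) (L : Subgroup H)
    (hPn : P₁.Normal) (hQn : Q₁.Normal) (hPfi : P₁.FiniteIndex) (hQfi : Q₁.FiniteIndex)
    (hLP : ∀ h, X.α h ∈ P₁ ↔ h ∈ L) (hLQ : ∀ h, X.β h ∈ Q₁ ↔ h ∈ L)
    (F : P → ℤ) (hF : ∀ a ∈ P₁, ∀ b ∈ P₁, F (a * b) = F a + F b)
    (F' : Q → ℤ) (hF' : ∀ a ∈ Q₁, ∀ b ∈ Q₁, F' (a * b) = F' a + F' b)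
    (w : P ⧸ P₁ → ℤ) (w' : Q ⧸ Q₁ → ℤ)
    (W : ∀ x y, ∀ l ∈ L, w' y * F (x.out⁻¹ * X.α l * x.out) = w x * F' (y.out⁻¹ * X.β l * y.out))
    (y₁ : Q ⧸ Q₁) (hy₁ : w' y₁ ≠ 0) {a : P} {M : ℕ} (hM : 0 < M) (ha : a ^ M ∈ P₁)
    (hFa : F (a ^ M) ≠ 0) : VR (X.i a) := by
  classical
  have fP : Finite (P ⧸ P₁) := inferInstance
  have fQ : Finite (Q ⧸ Q₁) := inferInstance
  let _ : Fintype (P ⧸ P₁) := Fintype.ofFinite _
  let _ : Fintype (Q ⧸ Q₁) := Fintype.ofFinite _
  have hLfi : L.FiniteIndex := by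
    refine fi_of_fun ⊤ L inferInstance (fun h => ((X.α h : P) : P ⧸ P₁)) ?_
    intro a _ b _ hab
    rw [← hLP, map_mul, map_inv]
    exact QuotientGroup.eq.1 hab
  have hLfin : Finite (H ⧸ L) := inferInstance
  obtain ⟨T, hT, τ, idx, h1, h2⟩ := exists_trans X.α P₁ hPn hPfi L hLP
  obtain ⟨U, hU, υ, idx', h1', h2'⟩ := exists_trans X.β Q₁ hQn hQfi L hLQ
  let E := (P ⧸ P₁) × (Q ⧸ Q₁) → ℤˣ
  let f : P → E → ℤ := fun a ε => ∑ q : (P ⧸ P₁) × (Q ⧸ Q₁),
    (ε q : ℤ) * (w' q.2 * F (q.1.out⁻¹ * a * q.1.out))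
  let f' : Q → E → ℤ := fun b ε => ∑ q : (P ⧸ P₁) × (Q ⧸ Q₁),
    (ε q : ℤ) * (w q.1 * F' (q.2.out⁻¹ * b * q.2.out))
  have hf : ∀ a ∈ P₁, ∀ b ∈ P₁, ∀ ε, f (a * b) ε = f a ε + f b ε := by
    intro a ha b hb ε
    show ∑ q : (P ⧸ P₁) × (Q ⧸ Q₁), (ε q : ℤ) * (w' q.2 * F (q.1.out⁻¹ * (a * b) * q.1.out)) = _ + _
    rw [← Finset.sum_add_distrib]
    refine Finset.sum_congr rfl fun q _ => ?_
    have h3 : q.1.out⁻¹ * (a * b) * q.1.out =
      (q.1.out⁻¹ * a * q.1.out) * (q.1.out⁻¹ * b * q.1.out) := by group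
    rw [h3, hF _ (normal_conj hPn ha _) _ (normal_conj hPn hb _)]
    ring
  have hf' : ∀ a ∈ Q₁, ∀ b ∈ Q₁, ∀ ε, f' (a * b) ε = f' a ε + f' b ε := by
    intro a ha b hb ε
    show ∑ q : (P ⧸ P₁) × (Q ⧸ Q₁), (ε q : ℤ) * (w q.1 * F' (q.2.out⁻¹ * (a * b) * q.2.out)) = _ + _
    rw [← Finset.sum_add_distrib]
    refine Finset.sum_congr rfl fun q _ => ?_
    have h3 : q.2.out⁻¹ * (a * b) * q.2.out =
      (q.2.out⁻¹ * a * q.2.out) * (q.2.out⁻¹ * b * q.2.out) := by group
    rw [h3, hF' _ (normal_conj hQn ha _) _ (normal_conj hQn hb _)]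
    ring
  let A : P → Equiv.Perm (E × ℤ) := fun a =>
    { toFun := fun z => (z.1, z.2 + f a z.1)
      invFun := fun z => (z.1, z.2 - f a z.1)
      left_inv := by rintro ⟨ε, k⟩; simp
      right_inv := by rintro ⟨ε, k⟩; simp }
  let B : Q → Equiv.Perm (E × ℤ) := fun a =>
    { toFun := fun z => (z.1, z.2 + f' a z.1)
      invFun := fun z => (z.1, z.2 - f' a z.1)
      left_inv := by rintro ⟨ε, k⟩; simp
      right_inv := by rintro ⟨ε, k⟩; simp }
  let θ : T → U → Equiv.Perm (E × ℤ) := fun t u =>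
    { toFun := fun z => (fun q => z.1 ((τ t)⁻¹ • q.1, υ u • q.2), z.2)
      invFun := fun z => (fun q => z.1 (τ t • q.1, (υ u)⁻¹ • q.2), z.2)
      left_inv := by rintro ⟨ε, k⟩; simp
      right_inv := by rintro ⟨ε, k⟩; simp }
  obtain ⟨ψ, hψ1, hψ2, hψ3⟩ := X.main P₁ Q₁ L hPn hQn hLfin hLP hLQ τ idx h1 h2 υ idx' h1' h2'
    (E := E) A (by
      intro a ha b hb
      apply Equiv.ext
      rintro ⟨ε, k⟩
      show (ε, k + f (a * b) ε) = (ε, (k + f b ε) + f a ε)
      rw [hf a ha b hb]; congr 1; ring) B (by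
      intro a ha b hb
      apply Equiv.ext
      rintro ⟨ε, k⟩
      show (ε, k + f' (a * b) ε) = (ε, (k + f' b ε) + f' a ε)
      rw [hf' a ha b hb]; congr 1; ring) θ (by
      intro t u l hl
      apply Equiv.ext
      rintro ⟨ε, k⟩
      show ((fun q : (P ⧸ P₁) × (Q ⧸ Q₁) => ε ((τ t)⁻¹ • q.1, υ u • q.2)),
          k + f ((τ t)⁻¹ * X.α l * τ t) ε) =
        ((fun q : (P ⧸ P₁) × (Q ⧸ Q₁) => ε ((τ t)⁻¹ • q.1, υ u • q.2)),
          k + f' ((υ u)⁻¹ * X.β l * υ u) (fun q => ε ((τ t)⁻¹ • q.1, υ u • q.2)))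
      congr 2
      have e1 : ∀ x : P ⧸ P₁, F (x.out⁻¹ * ((τ t)⁻¹ * X.α l * τ t) * x.out) =
          F ((τ t • x).out⁻¹ * X.α l * (τ t • x).out) := by
        intro x
        have h3 : τ t • x = ((τ t * x.out : P) : P ⧸ P₁) := by
          conv_lhs => rw [← QuotientGroup.out_eq' x]
          rfl
        rw [h3, conjF_mk hPn hF ((hLP l).2 hl)]
        congr 1; group
      have e2 : ∀ x : Q ⧸ Q₁, F' (x.out⁻¹ * ((υ u)⁻¹ * X.β l * υ u) * x.out) =
          F' ((υ u • x).out⁻¹ * X.β l * (υ u • x).out) := by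
        intro x
        have h3 : υ u • x = ((υ u * x.out : Q) : Q ⧸ Q₁) := by
          conv_lhs => rw [← QuotientGroup.out_eq' x]
          rfl
        rw [h3, conjF_mk hQn hF' ((hLQ l).2 hl)]
        congr 1; group
      let σ : ((P ⧸ P₁) × (Q ⧸ Q₁)) ≃ ((P ⧸ P₁) × (Q ⧸ Q₁)) :=
        { toFun := fun q => ((τ t)⁻¹ • q.1, υ u • q.2)
          invFun := fun q => (τ t • q.1, (υ u)⁻¹ • q.2)
          left_inv := by rintro ⟨x, y⟩; simp
          right_inv := by rintro ⟨x, y⟩; simp }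
      show ∑ q : (P ⧸ P₁) × (Q ⧸ Q₁), (ε q : ℤ) *
          (w' q.2 * F (q.1.out⁻¹ * ((τ t)⁻¹ * X.α l * τ t) * q.1.out)) =
        ∑ q : (P ⧸ P₁) × (Q ⧸ Q₁), (ε ((τ t)⁻¹ • q.1, υ u • q.2) : ℤ) *
          (w q.1 * F' (q.2.out⁻¹ * ((υ u)⁻¹ * X.β l * υ u) * q.2.out))
      rw [← Equiv.sum_comp σ]
      refine Finset.sum_congr rfl fun q _ => ?_
      show (ε ((τ t)⁻¹ • q.1, υ u • q.2) : ℤ) * (w' (υ u • q.2) *
        F (((τ t)⁻¹ • q.1).out⁻¹ * ((τ t)⁻¹ * X.α l * τ t) * ((τ t)⁻¹ • q.1).out)) = _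
      rw [e1, e2, smul_inv_smul, W _ _ l hl]
      ) (by
      intro a _ e k
      show (e, (k + 1) + f a e) = (e, (k + f a e) + 1)
      congr 1; ring) (by
      intro a _ e k
      show (e, (k + 1) + f' a e) = (e, (k + f' a e) + 1)
      congr 1; ring) (by
      intro t u e k
      rfl)
  -- evaluate
  obtain ⟨c, t⟩ : (H ⧸ L) × T := idx 1
  obtain ⟨c', u⟩ : (H ⧸ L) × U := idx' 1
  set r : P := X.α (Quotient.out c) * τ t with hr
  set b : P := r⁻¹ * (a ^ M * r) with hb
  have hbP : b ∈ P₁ := by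
    rw [hb, ← mul_assoc]; exact normal_conj hPn ha r
  let e : E := fun q => if 0 ≤ w' q.2 * F (q.1.out⁻¹ * b * q.1.out) then 1 else -1
  have hfe : 0 < f b e := by
    have hterm : ∀ q : (P ⧸ P₁) × (Q ⧸ Q₁), (e q : ℤ) * (w' q.2 * F (q.1.out⁻¹ * b * q.1.out)) =
        |w' q.2 * F (q.1.out⁻¹ * b * q.1.out)| := by
      intro q
      by_cases h3 : 0 ≤ w' q.2 * F (q.1.out⁻¹ * b * q.1.out)
      · have : e q = 1 := if_pos h3
        rw [this, abs_of_nonneg h3]; simp
      · have : e q = -1 := if_neg h3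
        rw [this, abs_of_neg (not_le.1 h3)]; simp
    show 0 < ∑ q : (P ⧸ P₁) × (Q ⧸ Q₁), (e q : ℤ) * (w' q.2 * F (q.1.out⁻¹ * b * q.1.out))
    refine Finset.sum_pos' (fun q _ => ?_) ⟨(((r⁻¹ : P) : P ⧸ P₁), y₁), Finset.mem_univ _, ?_⟩
    · rw [hterm]; exact abs_nonneg _
    · rw [hterm]
      apply abs_pos.2
      refine mul_ne_zero hy₁ ?_
      rw [conjF_mk hPn hF hbP]
      have h3 : (r⁻¹)⁻¹ * b * r⁻¹ = a ^ M := by rw [hb]; group
      rw [h3]; exact hFa
  refine hψ3 (X.i a) M c t u e (f b e) hM hfe.ne' ?_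
  rw [← map_pow, hψ1 (a ^ M) c t c t u (e, 0) hbP]
  show ((c, t), (u, (e, 0 + f b e))) = _
  rw [zero_add]

theorem Amalg.elliptic_fin {H P Q G : Type u} [Group H] [Group P] [Group Q] [Group G]
    (X : Amalg H P Q G) (P₁ : Subgroup P) (Q₁ : Subgroup Q) (L : Subgroup H)
    (hPn : P₁.Normal) (hQn : Q₁.Normal) (hPfi : P₁.FiniteIndex) (hQfi : Q₁.FiniteIndex)
    (hLP : ∀ h, X.α h ∈ P₁ ↔ h ∈ L) (hLQ : ∀ h, X.β h ∈ Q₁ ↔ h ∈ L)
    {a : P} (ha : ∀ n : ℤ, a ^ n ∈ P₁ → a ^ n = 1) : VR (X.i a) := by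
  classical
  have hLfi : L.FiniteIndex := by
    refine fi_of_fun ⊤ L inferInstance (fun h => ((X.α h : P) : P ⧸ P₁)) ?_
    intro a _ b _ hab
    rw [← hLP, map_mul, map_inv]
    exact QuotientGroup.eq.1 hab
  have hLfin : Finite (H ⧸ L) := inferInstance
  obtain ⟨T, hT, τ, idx, h1, h2⟩ := exists_trans X.α P₁ hPn hPfi L hLP
  obtain ⟨U, hU, υ, idx', h1', h2'⟩ := exists_trans X.β Q₁ hQn hQfi L hLQ
  obtain ⟨ψ, hψ1, hψ2⟩ := X.builder P₁ Q₁ L hPn hQn hLP hLQ τ idx h1 h2 υ idx' h1' h2'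
    (D := PUnit.{u + 1}) (fun _ => 1) (by intros; simp) (fun _ => 1) (by intros; simp)
    (fun _ _ => 1) (by intros; rfl)
  have hfin : Finite (((H ⧸ L) × T) × (U × PUnit.{u + 1})) := inferInstance
  have hfin2 : Finite (Equiv.Perm (((H ⧸ L) × T) × (U × PUnit.{u + 1}))) := inferInstance
  refine vr_of_finite ψ.ker inferInstance inferInstance ?_
  intro n hn
  rw [← map_zpow] at hn ⊢
  obtain ⟨c, t⟩ : (H ⧸ L) × T := idx 1
  obtain ⟨c', u⟩ : (H ⧸ L) × U := idx' 1
  set r : P := X.α (Quotient.out c) * τ t with hr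
  have h3 := h1 (a ^ n * r)
  have h4 := hψ1 (a ^ n) c t _ _ u PUnit.unit h3
  rw [MonoidHom.mem_ker] at hn
  rw [hn] at h4
  simp only [Equiv.Perm.coe_one, id_eq, Prod.mk.injEq, Prod.mk.eta] at h4
  obtain ⟨h5, -⟩ := h4
  rw [← h5] at h3
  have h6 : a ^ n ∈ P₁ := by
    have h7 := hPn.conj_mem _ h3 r
    convert h7 using 1
    simp only [hr]; group
  rw [ha n h6, map_one]

end elliptic


/-! ### all elements of the first factor -/

theorem Amalg.elliptic {H P Q G : Type u} [Group H] [Group P] [Group Q] [Group G]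
    (X : Amalg H P Q G) (hP : ∀ p : P, VR p) (hQ : ∀ q : Q, VR q) (l : H)
    (hl : (Subgroup.zpowers l).FiniteIndex) (a : P) : VR (X.i a) := by
  classical
  rcases fin_or_inf a with ⟨n, hn, han⟩ | hinf
  · have hfin : Finite (Subgroup.zpowers a) := by
      have : IsOfFinOrder a := isOfFinOrder_iff_pow_eq_one.2 ⟨n, hn, han⟩
      exact (finite_zpowers.2 this).to_subtype
    obtain ⟨P₀, p1, p2, -, p3⟩ := exists_inter (ι := Subgroup.zpowers a)
      (fun g N => (g : P) ∈ N → (g : P) = 1) (fun g N N' hle hN hh => hN (hle hh)) (by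
        intro g
        by_cases hg : (g : P) = 1
        · exact ⟨⊤, inferInstance, inferInstance, fun _ => hg⟩
        · obtain ⟨N, hN, hNfi, hNh⟩ := resfin (hP (g : P)) hg
          exact ⟨N, hN, hNfi, fun h0 => absurd h0 hNh⟩) ⊤ inferInstance inferInstance
    obtain ⟨a₁, ha₁, -, hA⟩ := exhaust hP X.α X.hα l hl P₀ p1 p2 (ι := Empty)
      (fun e => e.elim) (fun e => e.elim)
    obtain ⟨b₁, hb₁, -, hB⟩ := exhaust hQ X.β X.hβ l hl ⊤ inferInstance inferInstance (ι := Empty)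
      (fun e => e.elim) (fun e => e.elim)
    obtain ⟨P₁, q1, q2, q3, q4, -⟩ := hA b₁ hb₁
    obtain ⟨Q₁, r1, r2, r3, r4, -⟩ := hB a₁ ha₁
    rw [mul_comm] at r4
    refine X.elliptic_fin P₁ Q₁ _ q1 r1 q2 r2 q4 r4 ?_
    intro n hn
    exact p3 ⟨a ^ n, ⟨n, rfl⟩⟩ (q3 hn)
  · obtain ⟨K, F, hK, hF, haK, hFa⟩ := exists_additive (hP a) hinf
    obtain ⟨a₁, ha₁, ha₁', hA⟩ := exhaust hP X.α X.hα l hl K.normalCore K.normalCore_normal
      inferInstance (ι := Empty) (fun e => e.elim) (fun e => e.elim)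
    rcases fin_or_inf l with hlfin | hlinf
    · obtain ⟨b₁, hb₁, -, hB⟩ := exhaust hQ X.β X.hβ l hl ⊤ inferInstance inferInstance (ι := Empty)
        (fun e => e.elim) (fun e => e.elim)
      obtain ⟨P₁, q1, q2, q3, q4, -⟩ := hA b₁ hb₁
      obtain ⟨Q₁, r1, r2, r3, r4, -⟩ := hB a₁ ha₁
      rw [mul_comm] at r4
      have hFP : ∀ a ∈ P₁, ∀ b ∈ P₁, F (a * b) = F a + F b := fun a ha b hb =>
        hF a (K.normalCore_le (q3 ha)) b (K.normalCore_le (q3 hb))
      have haM : a ^ P₁.index ∈ P₁ := P₁.pow_index_mem a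
      refine X.elliptic_inf P₁ Q₁ _ q1 r1 q2 r2 q4 r4 F hFP (fun _ => 0) (by intros; simp)
        (fun _ => 0) (fun _ => 1) ?_ ((1 : Q) : Q ⧸ Q₁) one_ne_zero
        (Nat.pos_of_ne_zero q2.index_ne_zero) haM ?_
      · intro x y l' hl'
        rw [pow_mul, ha₁' hlfin, one_pow, Subgroup.zpowers_one_eq_bot, Subgroup.mem_bot] at hl'
        subst hl'
        have : x.out⁻¹ * X.α 1 * x.out = 1 := by rw [map_one]; group
        rw [this, add_one hF]; simp
      · rw [add_pow hF haK, hFa, mul_one]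
        exact_mod_cast q2.index_ne_zero
    · have hβl : ∀ n : ℤ, (X.β l) ^ n = 1 → n = 0 := by
        intro n hn
        apply hlinf
        apply X.hβ
        rw [map_zpow, hn, map_one]
      obtain ⟨K', F', hK', hF', hlK', hFl'⟩ := exists_additive (hQ (X.β l)) hβl
      obtain ⟨b₁, hb₁, -, hB⟩ := exhaust hQ X.β X.hβ l hl K'.normalCore K'.normalCore_normal
        inferInstance (ι := Empty) (fun e => e.elim) (fun e => e.elim)
      obtain ⟨P₁, q1, q2, q3, q4, -⟩ := hA b₁ hb₁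
      obtain ⟨Q₁, r1, r2, r3, r4, -⟩ := hB a₁ ha₁
      rw [mul_comm] at r4
      have hFP : ∀ a ∈ P₁, ∀ b ∈ P₁, F (a * b) = F a + F b := fun a ha b hb =>
        hF a (K.normalCore_le (q3 ha)) b (K.normalCore_le (q3 hb))
      have hFQ : ∀ a ∈ Q₁, ∀ b ∈ Q₁, F' (a * b) = F' a + F' b := fun a ha b hb =>
        hF' a (K'.normalCore_le (r3 ha)) b (K'.normalCore_le (r3 hb))
      have haM : a ^ P₁.index ∈ P₁ := P₁.pow_index_mem a
      set lam : H := l ^ (a₁ * b₁) with hlam
      have hlamP : X.α lam ∈ P₁ := (q4 _).2 (Subgroup.mem_zpowers _)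
      have hlamQ : X.β lam ∈ Q₁ := (r4 _).2 (Subgroup.mem_zpowers _)
      refine X.elliptic_inf P₁ Q₁ _ q1 r1 q2 r2 q4 r4 F hFP F' hFQ
        (fun x => F (x.out⁻¹ * X.α lam * x.out)) (fun y => F' (y.out⁻¹ * X.β lam * y.out))
        ?_ ((1 : Q) : Q ⧸ Q₁) ?_ (Nat.pos_of_ne_zero q2.index_ne_zero) haM ?_
      · intro x y l' hl'
        obtain ⟨n, rfl⟩ := Subgroup.mem_zpowers_iff.1 hl'
        have e1 : x.out⁻¹ * X.α (lam ^ n) * x.out = (x.out⁻¹ * X.α lam * x.out) ^ n := by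
          rw [map_zpow]
          have := conj_zpow (i := n) (a := x.out⁻¹) (b := X.α lam)
          rw [inv_inv] at this
          exact this.symm
        have e2 : y.out⁻¹ * X.β (lam ^ n) * y.out = (y.out⁻¹ * X.β lam * y.out) ^ n := by
          rw [map_zpow]
          have := conj_zpow (i := n) (a := y.out⁻¹) (b := X.β lam)
          rw [inv_inv] at this
          exact this.symm
        rw [e1, e2, add_zpow hFP (normal_conj q1 hlamP _), add_zpow hFQ (normal_conj r1 hlamQ _)]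
        ring
      · rw [conjF_mk r1 hFQ hlamQ]
        have e3 : (1 : Q)⁻¹ * X.β lam * 1 = (X.β l) ^ (a₁ * b₁) := by
          rw [hlam, map_pow]; simp
        rw [e3, add_pow hF' hlK', hFl', mul_one]
        exact_mod_cast (Nat.mul_pos ha₁ hb₁).ne'
      · rw [add_pow hF haK, hFa, mul_one]
        exact_mod_cast q2.index_ne_zero

/-- exchanging the two factors -/
def Amalg.swap {H P Q G : Type u} [Group H] [Group P] [Group Q] [Group G]
    (X : Amalg H P Q G) : Amalg H Q P G where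
  α := X.β
  β := X.α
  hα := X.hβ
  hβ := X.hα
  i := X.j
  j := X.i
  comm := fun h => (X.comm h).symm
  lift := fun A _ f g h => by
    obtain ⟨ψ, h1, h2⟩ := X.lift A g f (fun x => (h x).symm)
    exact ⟨ψ, h2, h1⟩
  gen := by rw [Set.union_comm]; exact X.gen


/-! ### hyperbolic elements -/

section hyperbolic

theorem exists_perm {V : Type v} [Finite V] (S : Set V) (φ : V → V) (h : Set.InjOn φ S) :
    ∃ e : Equiv.Perm V, ∀ m ∈ S, e m = φ m := by
  classical
  let _ : Fintype V := Fintype.ofFinite V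
  obtain ⟨g, hg⟩ := Set.MapsTo.exists_equiv_extend_of_card_eq (α := V) (β := V)
    (t := Finset.univ) (by simp) (s := S) (f := φ) (fun x _ => Finset.mem_univ _) h
  exact ⟨g.trans (Equiv.subtypeUnivEquiv (fun x => Finset.mem_univ x)), fun m hm => hg m hm⟩

/-- the permutations steering the walk -/
theorem exists_steer {T U : Type u} {N : ℕ} [NeZero N] (tz : ZMod N → T) (uz : ZMod N → U)
    (ht : ∀ m, tz (m + 1) ≠ tz m) (hu : ∀ m, uz (m + 1) ≠ uz m) :
    ∃ π : T → U → Equiv.Perm (ZMod N), (∀ m, π (tz m) (uz m) m = m) ∧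
      ∀ m, π (tz m) (uz (m + 1)) (m + 1) = m := by
  classical
  have h0 : ∀ t u, ∃ e : Equiv.Perm (ZMod N), (∀ m, tz m = t → uz m = u → e m = m) ∧
      ∀ m, tz m = t → uz (m + 1) = u → e (m + 1) = m := by
    intro t u
    obtain ⟨e, he⟩ := exists_perm {m : ZMod N | (tz m = t ∧ uz m = u) ∨ (tz (m - 1) = t ∧ uz m = u)}
      (fun m => if tz m = t ∧ uz m = u then m else m - 1) (by
        intro m₁ hm₁ m₂ hm₂ hmm
        simp only at hmm
        by_cases h1 : tz m₁ = t ∧ uz m₁ = u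
        · by_cases h2 : tz m₂ = t ∧ uz m₂ = u
          · rw [if_pos h1, if_pos h2] at hmm; exact hmm
          · rw [if_pos h1, if_neg h2] at hmm
            exfalso
            rcases hm₂ with h3 | h3
            · exact h2 h3
            · apply hu m₁
              have : m₁ + 1 = m₂ := by rw [hmm]; ring
              rw [this, h3.2, h1.2]
        · by_cases h2 : tz m₂ = t ∧ uz m₂ = u
          · rw [if_neg h1, if_pos h2] at hmm
            exfalso
            rcases hm₁ with h3 | h3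
            · exact h1 h3
            · apply hu m₂
              have : m₂ + 1 = m₁ := by rw [← hmm]; ring
              rw [this, h3.2, h2.2]
          · rw [if_neg h1, if_neg h2] at hmm
            exact sub_left_injective hmm)
    refine ⟨e, ?_, ?_⟩
    · intro m h1 h2
      rw [he m (Or.inl ⟨h1, h2⟩), if_pos ⟨h1, h2⟩]
    · intro m h1 h2
      have h3 : tz (m + 1 - 1) = t := by rw [add_sub_cancel_right]; exact h1
      rw [he (m + 1) (Or.inr ⟨h3, h2⟩), if_neg]
      · ring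
      · rintro ⟨h4, -⟩
        exact ht m (by rw [h4, h1])
  choose π hπ1 hπ2 using h0
  exact ⟨π, fun m => hπ1 _ _ m rfl rfl, fun m => hπ2 _ _ m rfl rfl⟩

theorem Amalg.hyperbolic {H P Q G : Type u} [Group H] [Group P] [Group Q] [Group G]
    (X : Amalg H P Q G) (hP : ∀ p : P, VR p) (hQ : ∀ q : Q, VR q) (l : H)
    (hl : (Subgroup.zpowers l).FiniteIndex) (n : ℕ) (hn : 0 < n) (p : ℕ → P) (q : ℕ → Q)
    (hp : ∀ k, p k ∉ X.α.range) (hq : ∀ k, q k ∉ X.β.range)
    (pp : ∀ k, p (k + n) = p k) (qp : ∀ k, q (k + n) = q k)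
    (g : ℕ → G) (g0 : g 0 = 1) (g1 : ∀ k, g (k + 1) = X.i (p k) * X.j (q k) * g k) :
    VR (g n) := by
  classical
  obtain ⟨a₁, ha₁, -, hA⟩ := exhaust hP X.α X.hα l hl ⊤ inferInstance inferInstance (ι := Fin n)
    (fun k => p k) (fun k => hp k)
  obtain ⟨b₁, hb₁, -, hB⟩ := exhaust hQ X.β X.hβ l hl ⊤ inferInstance inferInstance (ι := Fin n)
    (fun k => q k) (fun k => hq k)
  obtain ⟨P₁, hPn, hPfi, -, hLP, avP⟩ := hA b₁ hb₁
  obtain ⟨Q₁, hQn, hQfi, -, hLQ, avQ⟩ := hB a₁ ha₁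
  rw [mul_comm] at hLQ
  set L := Subgroup.zpowers (l ^ (a₁ * b₁)) with hL
  have avP' : ∀ k h, X.α h * p k ∉ P₁ := by
    intro k h
    have h3 : p (k % n) = p k := Function.Periodic.map_mod_nat (f := p) pp k
    rw [← h3]
    exact avP ⟨k % n, Nat.mod_lt _ hn⟩ h
  have avQ' : ∀ k h, X.β h * q k ∉ Q₁ := by
    intro k h
    have h3 : q (k % n) = q k := Function.Periodic.map_mod_nat (f := q) qp k
    rw [← h3]
    exact avQ ⟨k % n, Nat.mod_lt _ hn⟩ h
  have hLfi : L.FiniteIndex := by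
    refine fi_of_fun ⊤ L inferInstance (fun h => ((X.α h : P) : P ⧸ P₁)) ?_
    intro a _ b _ hab
    rw [← hLP, map_mul, map_inv]
    exact QuotientGroup.eq.1 hab
  have hLfin : Finite (H ⧸ L) := inferInstance
  obtain ⟨T, hT, τ, idx, h1, h2⟩ := exists_trans X.α P₁ hPn hPfi L hLP
  obtain ⟨U, hU, υ, idx', h1', h2'⟩ := exists_trans X.β Q₁ hQn hQfi L hLQ
  -- the base action
  obtain ⟨ψ₀, e1, e2⟩ := X.builder P₁ Q₁ L hPn hQn hLP hLQ τ idx h1 h2 υ idx' h1' h2'
    (D := PUnit.{u + 1}) (fun _ => 1) (by intros; simp) (fun _ => 1) (by intros; simp)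
    (fun _ _ => 1) (by intros; rfl)
  have hfin : Finite (((H ⧸ L) × T) × (U × PUnit.{u + 1})) := inferInstance
  have hfin2 : Finite (Equiv.Perm (((H ⧸ L) × T) × (U × PUnit.{u + 1}))) := inferInstance
  obtain ⟨c₀, t₀⟩ : (H ⧸ L) × T := idx 1
  obtain ⟨c₀', u₀⟩ : (H ⧸ L) × U := idx' 1
  -- the walk
  let mid : ℕ → (H ⧸ L) × T × U → (H ⧸ L) × U := fun k s =>
    idx' (q k * (X.β (Quotient.out s.1) * υ s.2.2))
  let nxt : ℕ → (H ⧸ L) × T × U → (H ⧸ L) × T := fun k s =>
    idx (p k * (X.α (Quotient.out (mid k s).1) * τ s.2.1))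
  let s : ℕ → (H ⧸ L) × T × U := fun k =>
    Nat.rec (c₀, t₀, u₀) (fun k s => ((nxt k s).1, (nxt k s).2, (mid k s).2)) k
  have s0 : s 0 = (c₀, t₀, u₀) := rfl
  have s1 : ∀ k, s (k + 1) = ((nxt k (s k)).1, (nxt k (s k)).2, (mid k (s k)).2) := fun k => rfl
  have fQ : ∀ k, (X.β (Quotient.out (mid k (s k)).1) * υ (s (k + 1)).2.2)⁻¹ *
      (q k * (X.β (Quotient.out (s k).1) * υ (s k).2.2)) ∈ Q₁ := by
    intro k
    rw [s1]
    exact h1' _
  have fP : ∀ k, (X.α (Quotient.out (s (k + 1)).1) * τ (s (k + 1)).2.1)⁻¹ *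
      (p k * (X.α (Quotient.out (mid k (s k)).1) * τ (s k).2.1)) ∈ P₁ := by
    intro k
    rw [s1]
    exact h1 _
  have nbU : ∀ k, (s (k + 1)).2.2 ≠ (s k).2.2 := by
    intro k h
    have h3 := fQ k
    rw [h] at h3
    set c := Quotient.out (s k).1
    set m := Quotient.out (mid k (s k)).1
    set v := υ (s k).2.2
    apply avQ' k (c * m⁻¹)
    have h4 := hQn.conj_mem _ h3 (X.β c * v)
    convert h4 using 1
    rw [map_mul, map_inv]; group
  have nbT : ∀ k, (s (k + 1)).2.1 ≠ (s k).2.1 := by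
    intro k h
    have h3 := fP k
    rw [h] at h3
    set c := Quotient.out (s (k + 1)).1
    set m := Quotient.out (mid k (s k)).1
    set v := τ (s k).2.1
    apply avP' k (m * c⁻¹)
    have h4 := hPn.conj_mem _ h3 (X.α m * v)
    convert h4 using 1
    rw [map_mul, map_inv]; group
  -- powers
  have gadd : ∀ k, g (k + n) = g k * g n := by
    intro k
    induction k with
    | zero => rw [zero_add, g0, one_mul]
    | succ k ih =>
      have : k + 1 + n = (k + n) + 1 := by ring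
      rw [this, g1, pp, qp, ih, g1]; group
  have gmul : ∀ m k, g (k + n * m) = g k * (g n) ^ m := by
    intro m
    induction m with
    | zero => intro k; simp
    | succ m ih =>
      intro k
      have : k + n * (m + 1) = (k + n) + n * m := by ring
      rw [this, ih, gadd, pow_succ']; group
  -- the walk is the orbit of the base action
  have hs : ∀ k, ψ₀ (g k) ((c₀, t₀), (u₀, PUnit.unit)) =
      (((s k).1, (s k).2.1), ((s k).2.2, PUnit.unit)) := by
    intro k
    induction k with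
    | zero => rw [g0, map_one, s0]; rfl
    | succ k ih =>
      rw [g1, map_mul, map_mul, Equiv.Perm.mul_apply, Equiv.Perm.mul_apply, ih,
        e2 (q k) _ _ _ _ _ _ (fQ k), e1 (p k) _ _ _ _ _ _ (fP k)]
  set K := orderOf (ψ₀ (g n)) with hK
  have hKpos : 0 < K := orderOf_pos _
  have hKone : ψ₀ ((g n) ^ K) = 1 := by rw [map_pow]; exact pow_orderOf_eq_one _
  set N := n * K with hN
  have hNpos : 0 < N := Nat.mul_pos hn hKpos
  have : NeZero N := ⟨hNpos.ne'⟩
  have sper : ∀ k, s (k + N) = s k := by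
    intro k
    have h3 := hs (k + N)
    rw [hN, gmul, map_mul, hKone, mul_one, hs k] at h3
    simp only [Prod.mk.injEq, and_true] at h3
    obtain ⟨⟨h4, h5⟩, h6⟩ := h3
    rw [hN]
    exact Prod.ext h4.symm (Prod.ext h5.symm h6.symm)
  have smod : ∀ k, s (k % N) = s k := fun k => Function.Periodic.map_mod_nat (f := s) sper k
  let sz : ZMod N → (H ⧸ L) × T × U := fun m => s m.val
  have hsz : ∀ k : ℕ, sz (k : ZMod N) = s k := by
    intro k
    show s ((k : ZMod N).val) = s k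
    rw [ZMod.val_natCast, smod]
  have hcast : ∀ m : ZMod N, ((m.val : ℕ) : ZMod N) = m := fun m => ZMod.natCast_zmod_val m
  have hsz1 : ∀ m : ZMod N, sz (m + 1) = s (m.val + 1) := by
    intro m
    have h3 := hsz (m.val + 1)
    rw [Nat.cast_add, Nat.cast_one, hcast] at h3
    exact h3
  obtain ⟨π, hπ1, hπ2⟩ := exists_steer (fun m => (sz m).2.1) (fun m => (sz m).2.2)
    (by intro m; rw [hsz1]; exact nbT _) (by intro m; rw [hsz1]; exact nbU _)
  let θ : T → U → Equiv.Perm (ULift.{u} (ZMod N) × ℤ) := fun t u =>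
    { toFun := fun z => (⟨π t u z.1.down⟩,
        z.2 + if t = t₀ ∧ u = u₀ ∧ z.1.down = 0 then 1 else 0)
      invFun := fun z => (⟨(π t u)⁻¹ z.1.down⟩,
        z.2 - if t = t₀ ∧ u = u₀ ∧ (π t u)⁻¹ z.1.down = 0 then 1 else 0)
      left_inv := by
        rintro ⟨⟨m⟩, k⟩
        simp
      right_inv := by
        rintro ⟨⟨m⟩, k⟩
        simp }
  have hθ1 : ∀ t u m k, θ t u (⟨m⟩, k) = (⟨π t u m⟩, k + if t = t₀ ∧ u = u₀ ∧ m = 0 then 1 else 0) :=
    fun t u m k => rfl
  obtain ⟨ψ, w1, w2, w3⟩ := X.main P₁ Q₁ L hPn hQn hLfin hLP hLQ τ idx h1 h2 υ idx' h1' h2'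
    (E := ULift.{u} (ZMod N)) (fun _ => 1) (by intros; simp) (fun _ => 1) (by intros; simp) θ
    (by intros; simp) (by intros; simp) (by intros; simp) (by
      rintro t u ⟨m⟩ k
      rw [hθ1, hθ1]
      congr 1; ring)
  let κ : ℕ → ℤ := fun k => ∑ j ∈ Finset.range k, if ((j : ℕ) : ZMod N) = 0 then 1 else 0
  have κ1 : ∀ k, κ (k + 1) = κ k + if ((k : ℕ) : ZMod N) = 0 then 1 else 0 := fun k =>
    Finset.sum_range_succ _ _
  have hmain : ∀ k, ψ (g k) ((c₀, t₀), (u₀, (⟨0⟩, 0))) =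
      (((s k).1, (s k).2.1), ((s k).2.2, (⟨((k : ℕ) : ZMod N)⟩, κ k))) := by
    intro k
    induction k with
    | zero =>
      rw [g0, map_one, s0]
      show _ = ((c₀, t₀), (u₀, ((⟨((0 : ℕ) : ZMod N)⟩ : ULift.{u} (ZMod N)), κ 0)))
      have : κ 0 = 0 := Finset.sum_range_zero _
      rw [this, Nat.cast_zero]; rfl
    | succ k ih =>
      rw [g1, map_mul, map_mul, Equiv.Perm.mul_apply, Equiv.Perm.mul_apply, ih,
        w2 (q k) _ _ _ _ _ _ (fQ k), w1 (p k) _ _ _ _ _ _ (fP k)]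
      have h3 : (θ (s k).2.1 (s (k + 1)).2.2)⁻¹ (θ (s k).2.1 (s k).2.2 (⟨((k : ℕ) : ZMod N)⟩, κ k)) =
          (⟨((k + 1 : ℕ) : ZMod N)⟩, κ (k + 1)) := by
        rw [Equiv.Perm.inv_eq_iff_eq, hθ1, hθ1]
        have h4 := hπ1 ((k : ℕ) : ZMod N)
        have h5 := hπ2 ((k : ℕ) : ZMod N)
        have h6 : ((k : ℕ) : ZMod N) + 1 = ((k + 1 : ℕ) : ZMod N) := by push_cast; rfl
        rw [h6] at h5
        simp only [hsz] at h4 h5
        rw [h4, h5, κ1]
        have h7 : ¬ ((s k).2.1 = t₀ ∧ (s (k + 1)).2.2 = u₀ ∧ ((k + 1 : ℕ) : ZMod N) = 0) := by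
          rintro ⟨h8, -, h9⟩
          apply nbT k
          have h10 : s (k + 1) = s 0 := by
            rw [← hsz (k + 1), h9, ← Nat.cast_zero, hsz 0]
          rw [h10, h8, s0]
        have h8 : ((s k).2.1 = t₀ ∧ (s k).2.2 = u₀ ∧ ((k : ℕ) : ZMod N) = 0) ↔
            ((k : ℕ) : ZMod N) = 0 := by
          constructor
          · exact fun h => h.2.2
          · intro h9
            have h10 : s k = s 0 := by
              rw [← hsz k, h9, ← Nat.cast_zero, hsz 0]
            rw [h10, s0]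
            exact ⟨rfl, rfl, h9⟩
        rw [if_neg h7, add_zero]
        simp only [h8]
      show (((s (k + 1)).1, (s (k + 1)).2.1), ((s (k + 1)).2.2,
        (θ (s k).2.1 (s (k + 1)).2.2)⁻¹ (θ (s k).2.1 (s k).2.2 (⟨((k : ℕ) : ZMod N)⟩, κ k)))) = _
      rw [h3]
  have hκ : 0 < κ N := by
    refine Finset.sum_pos' (fun j _ => ?_) ⟨0, Finset.mem_range.2 hNpos, ?_⟩
    · split_ifs <;> norm_num
    · simp
  refine w3 (g n) K c₀ t₀ u₀ ⟨0⟩ (κ N) hKpos hκ.ne' ?_
  have h3 := hmain N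
  have h4 : g N = (g n) ^ K := by
    have := gmul K 0
    rw [zero_add, g0, one_mul] at this
    exact this
  have h5 : s N = s 0 := by
    have := sper 0
    rw [zero_add] at this; exact this
  rw [h4, h5, s0] at h3
  rw [h3]
  simp

end hyperbolic


/-! ### all elements -/

section words

variable {H P Q G : Type u} [Group H] [Group P] [Group Q] [Group G]

/-- the element given by a letter -/
def Amalg.val (X : Amalg H P Q G) : P ⊕ Q → G := Sum.elim X.i X.j

@[simp] theorem Amalg.val_inl (X : Amalg H P Q G) (p : P) : X.val (Sum.inl p) = X.i p := rfl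

@[simp] theorem Amalg.val_inr (X : Amalg H P Q G) (q : Q) : X.val (Sum.inr q) = X.j q := rfl

theorem Amalg.irr_inl (X : Amalg H P Q G) {x y : P ⊕ Q}
    (h : ¬ ∃ z, X.val z = X.val x * X.val y) {a : P} (hx : x = Sum.inl a) :
    a ∉ X.α.range ∧ ∃ b, y = Sum.inr b := by
  subst hx
  rcases y with b | b
  · exfalso
    exact h ⟨Sum.inl (a * b), by simp [map_mul]⟩
  · refine ⟨?_, b, rfl⟩
    rintro ⟨r, hr⟩
    apply h
    refine ⟨Sum.inr (X.β r * b), ?_⟩
    rw [X.val_inr, X.val_inr, X.val_inl, ← hr, X.comm, map_mul]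

theorem Amalg.irr_inr (X : Amalg H P Q G) {x y : P ⊕ Q}
    (h : ¬ ∃ z, X.val z = X.val x * X.val y) {b : Q} (hx : x = Sum.inr b) :
    b ∉ X.β.range ∧ ∃ a, y = Sum.inl a := by
  subst hx
  rcases y with a | a
  · refine ⟨?_, a, rfl⟩
    rintro ⟨r, hr⟩
    apply h
    refine ⟨Sum.inl (X.α r * a), ?_⟩
    rw [X.val_inr, X.val_inl, X.val_inl, ← hr, ← X.comm, map_mul]
  · exfalso
    exact h ⟨Sum.inr (b * a), by simp [map_mul]⟩

theorem Amalg.alt_fun (X : Amalg H P Q G) (hP : ∀ p : P, VR p) (hQ : ∀ q : Q, VR q) (l : H)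
    (hl : (Subgroup.zpowers l).FiniteIndex) (L : ℕ → P ⊕ Q) (n : ℕ) (hn : 0 < n)
    (per : ∀ k, L (k + n) = L k) (irr : ∀ k, ¬ ∃ z, X.val z = X.val (L k) * X.val (L (k + 1)))
    (W : ℕ → G) (W0 : W 0 = 1) (W1 : ∀ k, W (k + 1) = W k * X.val (L k))
    (h0 : ∃ b, L 0 = Sum.inr b) : VR (W n) := by
  have hev : ∀ k, ∃ b, L (2 * k) = Sum.inr b := by
    intro k
    induction k with
    | zero => exact h0
    | succ k ih =>
      obtain ⟨b, hb⟩ := ih
      obtain ⟨-, a, ha⟩ := X.irr_inr (irr (2 * k)) hb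
      obtain ⟨-, c, hc⟩ := X.irr_inl (irr (2 * k + 1)) ha
      exact ⟨c, hc⟩
  choose b hb using hev
  have hodd : ∀ k, ∃ a, L (2 * k + 1) = Sum.inl a := fun k => (X.irr_inr (irr (2 * k)) (hb k)).2
  choose a ha using hodd
  have hb' : ∀ k, b k ∉ X.β.range := fun k => (X.irr_inr (irr (2 * k)) (hb k)).1
  have ha' : ∀ k, a k ∉ X.α.range := fun k => (X.irr_inl (irr (2 * k + 1)) (ha k)).1
  obtain ⟨m, hm⟩ : ∃ m, n = 2 * m := by
    rcases Nat.even_or_odd' n with ⟨m, hm | hm⟩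
    · exact ⟨m, hm⟩
    · exfalso
      have h1 := per 0
      rw [zero_add, hm, ha m] at h1
      have h2 := hb 0
      rw [mul_zero] at h2
      rw [h2] at h1
      cases h1
  have hm0 : 0 < m := by omega
  have key := X.hyperbolic hP hQ l hl m hm0 (fun k => (a k)⁻¹) (fun k => (b k)⁻¹)
    (fun k h => ha' k (by simpa using X.α.range.inv_mem h))
    (fun k h => hb' k (by simpa using X.β.range.inv_mem h))
    (by
      intro k
      have h1 := per (2 * k + 1)
      have h2 : 2 * k + 1 + n = 2 * (k + m) + 1 := by omega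
      rw [h2, ha, ha] at h1
      have h3 := Sum.inl_injective h1
      simp only [h3])
    (by
      intro k
      have h1 := per (2 * k)
      have h2 : 2 * k + n = 2 * (k + m) := by omega
      rw [h2, hb, hb] at h1
      have h3 := Sum.inr_injective h1
      simp only [h3])
    (fun k => (W (2 * k))⁻¹) (by simp [W0]) (by
      intro k
      have h1 : 2 * (k + 1) = 2 * k + 1 + 1 := by ring
      rw [h1, W1, W1, hb, ha, X.val_inl, X.val_inr, map_inv, map_inv]
      group)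
  rw [← hm] at key
  have := vr_inv key
  rwa [inv_inv] at this

theorem Amalg.list_word (X : Amalg H P Q G) (hP : ∀ p : P, VR p) (hQ : ∀ q : Q, VR q) (l : H)
    (hl : (Subgroup.zpowers l).FiniteIndex) :
    ∀ (n : ℕ) (w : List (P ⊕ Q)), w.length = n → VR (w.map X.val).prod := by
  intro n
  induction n using Nat.strong_induction_on with
  | _ n ih =>
  intro w hw
  match n, hw with
  | 0, hw =>
    have : w = [] := List.length_eq_zero_iff.1 hw
    subst this
    refine vr_of_finite ⊤ inferInstance inferInstance ?_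
    intro n _
    simp
  | 1, hw =>
    obtain ⟨x, rfl⟩ := List.length_eq_one_iff.1 hw
    rcases x with p | q
    · simpa using X.elliptic hP hQ l hl p
    · have h1 : VR (X.j q) := X.swap.elliptic hQ hP l hl q
      simpa using h1
  | n + 2, hw =>
    by_cases hred : ∃ k x y w'', w.rotate k = x :: y :: w'' ∧ ∃ z, X.val z = X.val x * X.val y
    · obtain ⟨k, x, y, w'', hrot, z, hz⟩ := hred
      have hlen : (w.rotate k).length = n + 2 := by rw [List.length_rotate, hw]
      rw [hrot] at hlen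
      simp only [List.length_cons] at hlen
      have h1 := ih (n + 1) (by omega) (z :: w'') (by simp only [List.length_cons]; omega)
      have h2 : ((z :: w'').map X.val).prod = ((w.rotate k).map X.val).prod := by
        rw [hrot]
        simp only [List.map_cons, List.prod_cons, hz, mul_assoc]
      rw [h2, List.rotate_eq_drop_append_take_mod, List.map_append, List.prod_append] at h1
      set m := k % w.length
      have h3 : (w.map X.val).prod = ((w.take m).map X.val).prod * ((w.drop m).map X.val).prod := by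
        rw [← List.prod_append, ← List.map_append, List.take_append_drop]
      have h4 := vr_conj h1 ((w.take m).map X.val).prod
      rw [h3]
      convert h4 using 1
      group
    · -- the cyclically reduced case
      have hlt : ∀ k, k % (n + 2) < w.length := by
        intro k
        rw [hw]; exact Nat.mod_lt _ (by omega)
      let L : ℕ → P ⊕ Q := fun k => w[k % (n + 2)]'(hlt k)
      have per : ∀ k, L (k + (n + 2)) = L k := by
        intro k
        show w[(k + (n + 2)) % (n + 2)]'(hlt _) = w[k % (n + 2)]'(hlt k)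
        congr 1
        exact Nat.add_mod_right k (n + 2)
      have irr : ∀ k, ¬ ∃ z, X.val z = X.val (L k) * X.val (L (k + 1)) := by
        rintro k ⟨z, hz⟩
        apply hred
        have hlen : (w.rotate k).length = n + 2 := by rw [List.length_rotate, hw]
        rcases hr : w.rotate k with _ | ⟨x, _ | ⟨y, w''⟩⟩
        · rw [hr] at hlen; simp at hlen
        · rw [hr] at hlen; simp at hlen
        · refine ⟨k, x, y, w'', hr, z, ?_⟩
          have e0 : (w.rotate k)[0]'(by rw [hlen]; omega) = x := by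
            simp only [hr, List.getElem_cons_zero]
          have e1 : (w.rotate k)[1]'(by rw [hlen]; omega) = y := by
            simp only [hr, List.getElem_cons_succ, List.getElem_cons_zero]
          rw [List.getElem_rotate] at e0 e1
          have f0 : L k = x := by
            rw [← e0]
            show w[k % (n + 2)]'(hlt k) = _
            congr 1
            rw [hw, zero_add]
          have f1 : L (k + 1) = y := by
            rw [← e1]
            show w[(k + 1) % (n + 2)]'(hlt _) = _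
            congr 1
            rw [hw, add_comm]
          rw [← f0, ← f1]
          exact hz
      let W : ℕ → G := fun k => ((List.range k).map (fun j => X.val (L j))).prod
      have W0 : W 0 = 1 := by simp [W]
      have W1 : ∀ k, W (k + 1) = W k * X.val (L k) := by
        intro k
        simp [W, List.range_succ]
      have hWn : W (n + 2) = (w.map X.val).prod := by
        have h1 : (List.range (n + 2)).map (fun j => X.val (L j)) = w.map X.val := by
          apply List.ext_getElem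
          · simp [hw]
          · intro j h1 h2
            simp only [List.getElem_map, List.getElem_range]
            have h3 : j < w.length := by simpa using h2
            congr 1
            show w[j % (n + 2)]'(hlt j) = w[j]'h3
            congr 1
            apply Nat.mod_eq_of_lt
            simpa using h1
        show ((List.range (n + 2)).map (fun j => X.val (L j))).prod = _
        rw [h1]
      rw [← hWn]
      rcases h0 : L 0 with a | b
      · -- shift by one letter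
        obtain ⟨-, b, hb⟩ := X.irr_inl (irr 0) h0
        have h1 := X.alt_fun hP hQ l hl (fun k => L (k + 1)) (n + 2) (by omega)
          (fun k => by
            show L (k + (n + 2) + 1) = L (k + 1)
            rw [← per (k + 1)]; congr 1; ring) (fun k => irr (k + 1))
          (fun k => (X.val (L 0))⁻¹ * W (k + 1)) (by
            rw [W1 0, W0]; group) (by
            intro k
            rw [W1 (k + 1)]; group) ⟨b, hb⟩
        rw [W1 (n + 2)] at h1
        have h2 : L (n + 2) = L 0 := by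
          have := per 0
          rwa [zero_add] at this
        rw [h2] at h1
        have h3 := vr_conj h1 (X.val (L 0))
        convert h3 using 1
        group
      · exact X.alt_fun hP hQ l hl L (n + 2) (by omega) per irr W W0 W1 ⟨b, h0⟩

theorem Amalg.all (X : Amalg H P Q G) (hP : ∀ p : P, VR p) (hQ : ∀ q : Q, VR q) (l : H)
    (hl : (Subgroup.zpowers l).FiniteIndex) (g : G) : VR g := by
  have hex : ∃ w : List (P ⊕ Q), g = (w.map X.val).prod := by
    have hg : g ∈ Subgroup.closure (Set.range X.i ∪ Set.range X.j) := by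
      rw [X.gen]; exact Subgroup.mem_top _
    induction hg using Subgroup.closure_induction with
    | mem x hx =>
      rcases hx with ⟨p, rfl⟩ | ⟨q, rfl⟩
      · exact ⟨[Sum.inl p], by simp⟩
      · exact ⟨[Sum.inr q], by simp⟩
    | one => exact ⟨[], by simp⟩
    | mul x y _ _ hx hy =>
      obtain ⟨w, rfl⟩ := hx
      obtain ⟨w', rfl⟩ := hy
      exact ⟨w ++ w', by simp⟩
    | inv x _ hx =>
      obtain ⟨w, rfl⟩ := hx
      refine ⟨(w.map (Sum.map (fun p => p⁻¹) (fun q => q⁻¹))).reverse, ?_⟩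
      rw [List.prod_inv_reverse, List.map_reverse, List.map_map, List.map_map]
      congr 2
      apply List.map_congr_left
      intro x _
      rcases x with p | q <;> simp
  obtain ⟨w, rfl⟩ := hex
  exact X.list_word hP hQ l hl w.length w rfl

end words


/-! ### the concrete amalgamated free product -/

/-- `P *_{R = S} Q`: the free product of `P` and `Q` modulo the normal closure of all
`r * (e r)⁻¹`, `r ∈ R`. -/
abbrev AmalgamatedProduct {P Q : Type u} [Group P] [Group Q] (R : Subgroup P) (S : Subgroup Q)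
    (e : R ≃* S) : Type u :=
  Monoid.Coprod P Q ⧸ Subgroup.normalClosure
    {x : Monoid.Coprod P Q | ∃ r : R, x = Monoid.Coprod.inl (r : P) *
      (Monoid.Coprod.inr ((e r : S) : Q))⁻¹}

/-- the amalgamated product as an instance of the abstract structure -/
noncomputable def concrete {P Q : Type u} [Group P] [Group Q] (R : Subgroup P) (S : Subgroup Q)
    (e : R ≃* S) : Amalg R P Q (AmalgamatedProduct R S e) where
  α := R.subtype
  β := S.subtype.comp e.toMonoidHom
  hα := Subtype.val_injective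
  hβ := Subtype.val_injective.comp e.injective
  i := (QuotientGroup.mk' _).comp Monoid.Coprod.inl
  j := (QuotientGroup.mk' _).comp Monoid.Coprod.inr
  comm := by
    intro h
    show ((Monoid.Coprod.inl (h : P) : Monoid.Coprod P Q) : AmalgamatedProduct R S e) =
      ((Monoid.Coprod.inr ((e h : S) : Q) : Monoid.Coprod P Q) : AmalgamatedProduct R S e)
    rw [eq_comm, QuotientGroup.eq]
    have h1 : (Monoid.Coprod.inl (h : P) : Monoid.Coprod P Q) *
        (Monoid.Coprod.inr ((e h : S) : Q))⁻¹ ∈ Subgroup.normalClosure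
        {x : Monoid.Coprod P Q | ∃ r : R, x = Monoid.Coprod.inl (r : P) *
          (Monoid.Coprod.inr ((e r : S) : Q))⁻¹} :=
      Subgroup.subset_normalClosure ⟨h, rfl⟩
    have h2 := normal_conj Subgroup.normalClosure_normal h1 (Monoid.Coprod.inr ((e h : S) : Q))
    convert h2 using 1
    group
  lift := by
    intro A _ f g hfg
    refine ⟨QuotientGroup.lift _ (Monoid.Coprod.lift f g) ?_, ?_, ?_⟩
    · intro x hx
      have h1 : Subgroup.normalClosure
        {x : Monoid.Coprod P Q | ∃ r : R, x = Monoid.Coprod.inl (r : P) *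
          (Monoid.Coprod.inr ((e r : S) : Q))⁻¹} ≤ (Monoid.Coprod.lift f g).ker := by
        apply Subgroup.normalClosure_le_normal
        rintro x ⟨r, rfl⟩
        show (Monoid.Coprod.lift f g) _ = 1
        rw [map_mul, map_inv, Monoid.Coprod.lift_apply_inl, Monoid.Coprod.lift_apply_inr]
        rw [mul_inv_eq_one]
        exact hfg r
      exact h1 hx
    · intro p
      exact Monoid.Coprod.lift_apply_inl f g p
    · intro q
      exact Monoid.Coprod.lift_apply_inr f g q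
  gen := by
    rw [eq_top_iff]
    intro x _
    obtain ⟨y, rfl⟩ := QuotientGroup.mk'_surjective _ x
    have hy : y ∈ Subgroup.closure (Set.range (Monoid.Coprod.inl : P →* Monoid.Coprod P Q) ∪
        Set.range (Monoid.Coprod.inr : Q →* Monoid.Coprod P Q)) := by
      rw [Monoid.Coprod.closure_range_inl_union_inr]; exact Subgroup.mem_top _
    induction hy using Subgroup.closure_induction with
    | mem x hx =>
      apply Subgroup.subset_closure
      rcases hx with ⟨p, rfl⟩ | ⟨q, rfl⟩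
      · exact Or.inl ⟨p, rfl⟩
      · exact Or.inr ⟨q, rfl⟩
    | one => rw [map_one]; exact Subgroup.one_mem _
    | mul x y _ _ hx hy => rw [map_mul]; exact Subgroup.mul_mem _ (hx trivial) (hy trivial)
    | inv x _ hx => rw [map_inv]; exact Subgroup.inv_mem _ (hx trivial)

/-- If `P` and `Q` have property (VRC), `R ≤ P` and `S ≤ Q` are subgroups isomorphic via `e` and
`R` is virtually cyclic, then the amalgamated free product `P *_{R = S} Q` has property (VRC). -/
theorem result {P Q : Type u} [Group P] [Group Q] (hP : VRC P) (hQ : VRC Q)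
    (R : Subgroup P) (S : Subgroup Q) (e : R ≃* S)
    (hR : ∃ r : R, (Subgroup.zpowers r).FiniteIndex) :
    VRC (Monoid.Coprod P Q ⧸ Subgroup.normalClosure
      {x : Monoid.Coprod P Q | ∃ r : R, x = Monoid.Coprod.inl (r : P) *
        (Monoid.Coprod.inr ((e r : S) : Q))⁻¹}) := by
  obtain ⟨l, hl⟩ := hR
  intro g
  rw [vr_iff]
  exact (concrete R S e).all (fun p => (vr_iff p).1 (hP p)) (fun q => (vr_iff q).1 (hQ q)) l hl g

end Pool.Agent.Results.MP_61a31f_al.AmalgamVRC
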